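import Pool.Agent.Helper36_TOR.Fin

/-! Part (a) of S01763, action side: near classes, induction. -/

set_option autoImplicit false

namespace Pool.Agent.TOR.SA

open CategoryTheory CategoryTheory.Limits Rep Representation Pool.Agent.TOR Pool.Agent.TOR.H58
open Pool.Agent.TOR.H59 Pool.Agent.TOR96 Pool.Agent.TOR.H29

/-- exponents can be enlarged -/
theorem pow_mono {V : Type} [AddCommGroup V] [Module ℚ V] (f : Module.End ℚ V) {M M' : ℕ}
    (h : M ∣ M') (a : ℕ) (x : V) (hx : ((f ^ M - 1) ^ a) x = 0) : ((f ^ M' - 1) ^ a) x = 0 := by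
  obtain ⟨k, rfl⟩ := h
  have h3 : (f ^ (M * k) - 1) ^ a =
      Polynomial.aeval f ((∑ i ∈ Finset.range k, (Polynomial.X ^ M : Polynomial ℚ) ^ i) ^ a *
      (Polynomial.X ^ M - 1) ^ a) := by
    rw [← mul_pow, geom_sum_mul, map_pow, map_sub, map_pow, map_pow, Polynomial.aeval_X, map_one,
      pow_mul]
  have h4 : (Polynomial.aeval f ((Polynomial.X ^ M - 1 : Polynomial ℚ) ^ a)) = (f ^ M - 1) ^ a := by
    simp
  rw [h3, map_mul, h4, Module.End.mul_apply, hx, map_zero]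

theorem LU.mono {q M M' c : ℕ} (h : LU q M c) (hM : M ∣ M') : LU q M' c := by
  intro n hn v hv τ hτ x
  obtain ⟨a, ha⟩ := h n hn v hv τ hτ x
  exact ⟨a, pow_mono _ hM a x ha⟩

theorem range_incl {n : ℕ} (v : Hh n) (g : Gam v) :
    (g : St n) ∈ IT n ↔ g ∈ (Subgroup.inclusion (IT_le_Gam v)).range := by
  constructor
  · intro h
    exact ⟨⟨g.1, h⟩, rfl⟩
  · rintro ⟨x, rfl⟩
    exact x.2

/-- quasi-unipotence gives vanishing -/
theorem va_of_lu (hT : TRV) {q M c : ℕ} (hM : 1 ≤ M) (hc : 1 ≤ c) (h : LU q M c) : VA q M c := by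
  intro n hcn v hv
  have hv0 := hv.ne_zero
  obtain ⟨τ, hτ⟩ := exists_tv hT (show 0 < n by omega) hv
  refine van_of_zero fun y => ?_
  have hz := zero_gen (IT n) (Gam v) (IT_le_Gam v) (dgm v) (fun g => dgm_eq_one hv0 g)
    (MonoidHom.id (Gam v)) (Subgroup.inclusion (IT_le_Gam v))
    (Subgroup.inclusion_injective _) (MonoidHom.id (IT n)) (fun x => rfl)
    (fun g => (dgm_eq_one hv0 g).trans (range_incl v g)) ⟨τ, 1, hτ⟩ (dgm_eq hv0 _ hτ) (RM M)
    (Submonoid.powers ((TT ^ M - 1 : LL))) (powers_le M hM) q (by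
      intro x
      have hid : hn (MonoidHom.id (IT n)) q x = x := by
        have h := groupHomology.map_id (A := Rep.trivial ℚ (IT n) ℚ) (n := q)
        exact congrArg (fun φ => φ.hom x) h
      obtain ⟨a, ha⟩ := h n hcn v hv τ hτ x
      refine ⟨(TT ^ M - 1) ^ a, ⟨a, rfl⟩, ?_⟩
      rw [hid]
      exact (eval_pow (IT n) q τ M a x).trans ha) y
  have h1 := H72.gI_id (AA v M) q y
  rw [← h1]
  exact hz

section near

variable {K r : ℕ} (φ : St (K + r)) {v : Hh (K + r)} {v' : Hh r} (h : hact φ (upv K r v') = v)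

/-- the map on the Torelli groups -/
noncomputable def nuH : IT r →* IT (K + r) := (cN (IT (K + r)) φ).comp (upI K r)

theorem hn_nuH (q : ℕ) (x : groupHomology (Rep.trivial ℚ (IT r) ℚ) q) :
    hn (nuH φ) q x = cR (IT (K + r)) q φ (hn (upI K r) q x) := by
  unfold hn nuH
  have h1 := gI_comp (upI K r) (cN (IT (K + r)) φ)
    (A := Rep.trivial ℚ (IT r) ℚ) (B := Rep.trivial ℚ (IT (K + r)) ℚ)
    (C := Rep.trivial ℚ (IT (K + r)) ℚ)
    (𝟙 (Rep.trivial ℚ (IT r) ℚ)) (𝟙 (Rep.trivial ℚ (IT (K + r)) ℚ))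
    (𝟙 (Rep.trivial ℚ (IT r) ℚ)) (fun _ => rfl) q x
  exact h1.symm

theorem cR_conj (q M a : ℕ) (τ : St (K + r))
    (y : groupHomology (Rep.trivial ℚ (IT (K + r)) ℚ) q)
    (hy : (((cR (IT (K + r)) q τ) ^ M - 1) ^ a) y = 0) :
    (((cR (IT (K + r)) q (φ * τ * φ⁻¹)) ^ M - 1) ^ a) (cR (IT (K + r)) q φ y) = 0 := by
  set ρ := cR (IT (K + r)) q with hρ
  have h1 : ∀ (b : ℕ) (z : groupHomology (Rep.trivial ℚ (IT (K + r)) ℚ) q),
      (((ρ (φ * τ * φ⁻¹)) ^ M - 1) ^ b) (ρ φ z) = ρ φ ((((ρ τ) ^ M - 1) ^ b) z) := by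
    intro b
    induction b with
    | zero => intro z; simp
    | succ b ih =>
      intro z
      rw [pow_succ, pow_succ, Module.End.mul_apply, Module.End.mul_apply, ← ih]
      congr 1
      have h2 : ∀ w, (ρ (φ * τ * φ⁻¹) ^ M) (ρ φ w) = ρ φ ((ρ τ ^ M) w) := by
        intro w
        rw [← map_pow, ← map_pow, ← Module.End.mul_apply, ← Module.End.mul_apply, ← map_mul,
          ← map_mul]
        congr 2
        rw [conj_pow]
        group
      rw [LinearMap.sub_apply, LinearMap.sub_apply, map_sub, h2]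
      simp
  rw [h1, hy, map_zero]

include h in
/-- near classes are killed -/
theorem near_kill (hT : TRV) {q M M' c : ℕ} (hM : 1 ≤ M) (hMM : M' ∣ M) (hNU : NU q M' K c)
    (hr : c ≤ r) (hr1 : 1 ≤ r) (hv : Prm v) (hv' : Prm v') (y : groupHomology (AA v' M) q) :
    gI (eH φ h) (mk1 (eH φ h) (AA v' M) (AA v M) LinearMap.id
      (fun g a => rho_eH φ h hv.ne_zero hv'.ne_zero M g a)) q y = 0 := by
  have hv0 := hv.ne_zero
  have hv0' := hv'.ne_zero
  obtain ⟨τ, hτ⟩ := exists_tv hT (show 0 < r by omega) hv'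
  have hz := zero_gen (IT (K + r)) (Gam v) (IT_le_Gam v) (dgm v) (fun g => dgm_eq_one hv0 g)
    (eH φ h) (Subgroup.inclusion (IT_le_Gam v'))
    (Subgroup.inclusion_injective _) (nuH φ) (fun x => by
      change ((cN (IT (K + r)) φ (upI K r x) : IT (K + r)) : St (K + r)) = φ * up K r x.1 * φ⁻¹
      rw [cN_coe]; rfl)
    (fun g => by rw [dgm_eH φ h hv0 hv0']; exact (dgm_eq_one hv0' g).trans (range_incl v' g))
    ⟨τ, 1, hτ⟩ (by rw [dgm_eH φ h hv0 hv0']; exact dgm_eq hv0' _ hτ) (RM M)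
    (Submonoid.powers ((TT ^ M - 1 : LL))) (powers_le M hM) q (by
      intro x
      obtain ⟨a, ha⟩ := hNU r hr v' hv' τ hτ x
      refine ⟨(TT ^ M - 1) ^ a, ⟨a, rfl⟩, ?_⟩
      rw [hn_nuH, eval_pow]
      exact cR_conj φ q M a (up K r τ) _ (pow_mono _ hMM a _ ha))
  have h2 : ∀ (g : Gam v') (a : RM M), (AA v' M).ρ g a =
      (chRep (RM M) (((algebraMap LL (RM M) : LL →* RM M).comp (uL (dgm v)⁻¹)).comp (eH φ h))).ρ
        (MonoidHom.id (Gam v') g) a := fun g a => rho_eH φ h hv0 hv0' M g a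
  have h3 := gI_comp (MonoidHom.id (Gam v')) (eH φ h)
    (mk1 (MonoidHom.id (Gam v')) (AA v' M)
      (chRep (RM M) (((algebraMap LL (RM M) : LL →* RM M).comp (uL (dgm v)⁻¹)).comp (eH φ h)))
      LinearMap.id (fun g a => h2 g a))
    (jm (RM M) (eH φ h) ((algebraMap LL (RM M) : LL →* RM M).comp (uL (dgm v)⁻¹)))
    (mk1 (eH φ h) (AA v' M) (AA v M) LinearMap.id
      (fun g a => rho_eH φ h hv.ne_zero hv'.ne_zero M g a)) (fun _ => rfl) q y
  rw [hz] at h3
  exact h3.symm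

end near

/-- one step of the induction -/
theorem va_step (hTR : TR) (hCC : CCH) (hT : TRV) {q M M' K c c2 : ℕ} (hM : 1 ≤ M)
    (hMM : M' ∣ M) (hVA : ∀ q' < q, VA q' M c) (hNU : NU q M' K c2) :
    ∃ c', VA q M c' := by
  obtain ⟨G, J, hG⟩ := hTR q
  have h1 := gn1 hCC (M := M) hG hVA
  refine ⟨(G + c + q + 1) + K + 1 + c2, fun n hn v hv => van_of_zero fun y => ?_⟩
  have hK : K ≤ n := by omega
  have h2 := gnm h1 K n hK (by omega) v hv ⊥ ?_ y
  · exact (AddSubgroup.mem_bot).1 h2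
  · intro φ ho c'
    rw [AddSubgroup.mem_bot]
    obtain ⟨r, rfl⟩ := Nat.exists_eq_add_of_le hK
    obtain ⟨v', h⟩ := exists_near ho
    have hv' := prm_near h hv
    obtain ⟨x, hx⟩ := surj_eqS φ h hv.ne_zero hv'.ne_zero M q c'
    rw [hx]
    exact near_kill φ h hT hM hMM hNU (by omega) (by omega) hv hv' x

/-- THE ACTION SIDE OF PART (a) -/
theorem main : MAIN := by
  intro hTR hCC hT hNU q
  induction q using Nat.strong_induction_on with
  | _ q ih =>
    obtain ⟨M', K, c2, hM', hN⟩ := hNU q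
    -- common exponent and genus for the lower degrees
    have key : ∀ s : ℕ, s ≤ q → ∃ M c, 1 ≤ M ∧ 1 ≤ c ∧ ∀ q' < s, VA q' M c := by
      intro s
      induction s with
      | zero => exact fun _ => ⟨1, 1, le_rfl, le_rfl, fun q' h => absurd h (Nat.not_lt_zero _)⟩
      | succ s ih2 =>
        intro hs
        obtain ⟨M1, c1, hM1, hc1, h1⟩ := ih2 (by omega)
        obtain ⟨M2, c3, hM2, h2⟩ := ih s (by omega)
        have hMp : 1 ≤ M1 * M2 := Nat.mul_pos hM1 hM2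
        refine ⟨M1 * M2, c1 + c3, hMp, by omega, fun q' hq' => ?_⟩
        refine va_of_lu hT hMp (by omega) ?_
        rcases Nat.lt_or_ge q' s with h3 | h3
        · intro n hn
          exact (lu_of_va hM1 (h1 q' h3)).mono (Dvd.intro _ rfl) n (by omega)
        · have h4 : q' = s := by omega
          subst h4
          intro n hn
          exact h2.mono (Dvd.intro_left _ rfl) n (by omega)
    obtain ⟨M0, c0, hM0, hc0, h0⟩ := key q le_rfl
    have hMp : 1 ≤ M0 * M' := Nat.mul_pos hM0 hM'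
    obtain ⟨c', hc'⟩ := va_step hTR hCC hT hMp (Dvd.intro_left _ rfl)
      (c := c0) (fun q' hq' => va_of_lu hT hMp hc0
        ((lu_of_va hM0 (h0 q' hq')).mono (Dvd.intro _ rfl))) hN
    exact ⟨M0 * M', c', hMp, lu_of_va hMp hc'⟩

end Pool.Agent.TOR.SA
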