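import Pool.Agent.Helper36_TOR.Ne

/-! Part (a) of S01763: far elements fix near classes. -/

set_option autoImplicit false

namespace Pool.Agent.TOR.SA

open CategoryTheory CategoryTheory.Limits Rep Representation Pool.Agent.TOR Pool.Agent.TOR.H58
open Pool.Agent.TOR.H59 Pool.Agent.TOR96 Pool.Agent.TOR.H29

theorem dn_mem {m r : ℕ} (φ : MulAut (FF m)) (hφ : φ ∈ St m) :
    TST.upE (loE m r) φ ∈ St (m + r) := by
  rw [mem_St] at *
  have h1 : TST.upE (loE m r) φ (FreeGroup.map (hiE m r) (zeta r)) =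
      FreeGroup.map (hiE m r) (zeta r) := by
    have h2 : (TST.upE (loE m r) φ : FF (m + r) ≃* FF (m + r)).toMonoidHom.comp
        (FreeGroup.map (hiE m r)) = FreeGroup.map (hiE m r) := by
      refine FreeGroup.ext_hom _ _ fun l => ?_
      change TST.upE (loE m r) φ (FreeGroup.map (hiE m r) (FreeGroup.of l)) = _
      rw [FreeGroup.map.of]
      refine TST.upE_new _ _ _ fun i hi => ?_
      exact (not_hi_iff m r (hiE m r l)).2 ⟨i, hi⟩ l rfl
    exact DFunLike.congr_fun h2 _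
  rw [Pool.Agent.TOR96.zeta_add, map_mul, TST.upE_map, hφ, h1]

/-- extension by the identity on the near part: the far mapping classes -/
noncomputable def dn (m r : ℕ) : St m →* St (m + r) :=
  ((TST.upE (loE m r)).comp (St m).subtype).codRestrict (St (m + r)) fun φ => dn_mem _ φ.2

theorem dn_map {m r : ℕ} (φ : St m) (x : FF m) :
    app (dn m r φ) (FreeGroup.map (loE m r) x) = FreeGroup.map (loE m r) (app φ x) :=
  TST.upE_map _ _ _

theorem dn_of {m r : ℕ} (φ : St m) (l : Fin 2 × Fin r) :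
    app (dn m r φ) (FreeGroup.of (hiE m r l)) = FreeGroup.of (hiE m r l) := by
  refine TST.upE_new _ _ _ fun i hi => ?_
  exact (not_hi_iff m r (hiE m r l)).2 ⟨i, hi⟩ l rfl

theorem dn_near {m r : ℕ} (φ : St m) (x : FF r) :
    app (dn m r φ) (FreeGroup.map (hiE m r) x) = FreeGroup.map (hiE m r) x := by
  have h2 : ((dn m r φ).1 : FF (m + r) ≃* FF (m + r)).toMonoidHom.comp
      (FreeGroup.map (hiE m r)) = FreeGroup.map (hiE m r) := by
    refine FreeGroup.ext_hom _ _ fun l => ?_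
    change app (dn m r φ) (FreeGroup.map (hiE m r) (FreeGroup.of l)) = _
    rw [FreeGroup.map.of]
    exact dn_of φ l
  exact DFunLike.congr_fun h2 x

theorem up_far {m r : ℕ} (ψ : St r) (x : FF m) :
    app (up m r ψ) (FreeGroup.map (loE m r) x) = FreeGroup.map (loE m r) x := by
  have h2 : ((up m r ψ).1 : FF (m + r) ≃* FF (m + r)).toMonoidHom.comp
      (FreeGroup.map (loE m r)) = FreeGroup.map (loE m r) := by
    refine FreeGroup.ext_hom _ _ fun l => ?_
    change app (up m r ψ) (FreeGroup.map (loE m r) (FreeGroup.of l)) = _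
    rw [FreeGroup.map.of]
    exact up_of ψ l
  exact DFunLike.congr_fun h2 x

/-- two elements are equal if they agree on the letters -/
theorem st_ext_of {n : ℕ} {φ ψ : St n}
    (h : ∀ l, app φ (FreeGroup.of l) = app ψ (FreeGroup.of l)) : φ = ψ := by
  refine st_ext fun x => ?_
  have h1 : ((φ.1 : FF n ≃* FF n).toMonoidHom) = ((ψ.1 : FF n ≃* FF n).toMonoidHom) :=
    FreeGroup.ext_hom _ _ h
  exact DFunLike.congr_fun h1 x

/-- near and far elements commute -/
theorem near_far {m r : ℕ} (φ : St m) (ψ : St r) : dn m r φ * up m r ψ = up m r ψ * dn m r φ := by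
  refine st_ext_of fun l => ?_
  rw [mul_app, mul_app]
  rcases split_eq l with ⟨l', rfl⟩ | ⟨l', rfl⟩
  · have h1 : (FreeGroup.of (hiE m r l') : FF (m + r)) =
        FreeGroup.map (hiE m r) (FreeGroup.of l') := by rw [FreeGroup.map.of]
    rw [h1, up_map, dn_near, dn_near, up_map]
  · have h1 : (FreeGroup.of (loE m r l') : FF (m + r)) =
        FreeGroup.map (loE m r) (FreeGroup.of l') := by rw [FreeGroup.map.of]
    rw [h1, up_far, dn_map, up_far]

/-- FARS: far elements fix near classes -/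
theorem cR_far {m r : ℕ} (q : ℕ) (g : St (m + r))
    (hg : ∀ ψ : IT r, g * up m r ψ.1 * g⁻¹ = up m r ψ.1)
    (x : groupHomology (Rep.trivial ℚ (IT r) ℚ) q) :
    cR (IT (m + r)) q g (hn (upI m r) q x) = hn (upI m r) q x := by
  have h1 := gI_comp (upI m r) (cN (IT (m + r)) g)
    (A := Rep.trivial ℚ (IT r) ℚ) (B := Rep.trivial ℚ (IT (m + r)) ℚ)
    (C := Rep.trivial ℚ (IT (m + r)) ℚ)
    (𝟙 (Rep.trivial ℚ (IT r) ℚ)) (𝟙 (Rep.trivial ℚ (IT (m + r)) ℚ))
    (𝟙 (Rep.trivial ℚ (IT r) ℚ)) (fun _ => rfl) q x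
  have h2 := gI_congr (φ := (cN (IT (m + r)) g).comp (upI m r)) (ψ := upI m r)
    (fun ψ => Subtype.ext (by
      change ((cN (IT (m + r)) g (upI m r ψ) : IT (m + r)) : St (m + r)) = up m r ψ.1
      rw [cN_coe]
      exact hg ψ))
    (A := Rep.trivial ℚ (IT r) ℚ) (B := Rep.trivial ℚ (IT (m + r)) ℚ)
    (𝟙 (Rep.trivial ℚ (IT r) ℚ)) (𝟙 (Rep.trivial ℚ (IT r) ℚ)) (fun _ => rfl) q x
  exact h1.trans h2

theorem cR_dn {m r : ℕ} (q : ℕ) (φ : St m)
    (x : groupHomology (Rep.trivial ℚ (IT r) ℚ) q) :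
    cR (IT (m + r)) q (dn m r φ) (hn (upI m r) q x) = hn (upI m r) q x := by
  refine cR_far q _ (fun ψ => ?_) x
  rw [near_far, mul_assoc, mul_inv_cancel, mul_one]

/-! ### action of the far elements on homology -/

/-- classes of the far part -/
def dnv (m r : ℕ) (v : Hh m) : Hh (m + r) :=
  fun l => Fin.addCases (motive := fun _ => ℤ) (fun j => v (l.1, j)) (fun _ => 0) l.2

theorem dnv_old {m r : ℕ} (v : Hh m) (l : Fin 2 × Fin m) : dnv m r v (loE m r l) = v l := by
  unfold dnv loE; simp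

theorem dnv_new {m r : ℕ} (v : Hh m) (l : Fin 2 × Fin r) : dnv m r v (hiE m r l) = 0 := by
  unfold dnv hiE; simp

theorem dnv_add {m r : ℕ} (v w : Hh m) : dnv m r (v + w) = dnv m r v + dnv m r w := by
  refine hh_ext (fun l => ?_) (fun l => ?_)
  · simp only [Pi.add_apply, dnv_new, add_zero]
  · simp only [Pi.add_apply, dnv_old]

theorem dnv_smul {m r : ℕ} (k : ℤ) (w : Hh m) : dnv m r (k • w) = k • dnv m r w := by
  refine hh_ext (fun l => ?_) (fun l => ?_)
  · simp only [Pi.smul_apply, dnv_new, smul_zero]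
  · simp only [Pi.smul_apply, dnv_old]

theorem dnv_zero {m r : ℕ} : dnv m r (0 : Hh m) = 0 := by
  refine hh_ext (fun l => ?_) (fun l => ?_)
  · rw [dnv_new]; rfl
  · rw [dnv_old]; rfl

theorem sf_dnv {m r : ℕ} (v w : Hh m) : sf (dnv m r v) (dnv m r w) = sf v w := by
  unfold sf
  rw [Fin.sum_univ_add]
  have h1 : ∀ (u : Hh m) (a : Fin 2) (i : Fin m), dnv m r u (a, Fin.castAdd r i) = u (a, i) :=
    fun u a i => dnv_old u (a, i)
  have h2 : ∀ (u : Hh m) (a : Fin 2) (i : Fin r), dnv m r u (a, Fin.natAdd m i) = 0 :=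
    fun u a i => dnv_new u (a, i)
  simp only [h1, h2]
  simp

theorem sf_dnv_upv {m r : ℕ} (v : Hh m) (w : Hh r) : sf (dnv m r v) (upv m r w) = 0 := by
  unfold sf
  rw [Fin.sum_univ_add]
  have h1 : ∀ (u : Hh m) (a : Fin 2) (i : Fin m), dnv m r u (a, Fin.castAdd r i) = u (a, i) :=
    fun u a i => dnv_old u (a, i)
  have h2 : ∀ (u : Hh m) (a : Fin 2) (i : Fin r), dnv m r u (a, Fin.natAdd m i) = 0 :=
    fun u a i => dnv_new u (a, i)
  have h3 : ∀ (u : Hh r) (a : Fin 2) (i : Fin m), upv m r u (a, Fin.castAdd r i) = 0 :=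
    fun u a i => upv_new u (a, i)
  simp only [h1, h2, h3]
  simp

theorem ev_mapL {m r : ℕ} (x : FF m) : ev (FreeGroup.map (loE m r) x) = dnv m r (ev x) := by
  induction x using FreeGroup.induction_on with
  | C1 => rw [map_one, ev_one, ev_one, dnv_zero]
  | of l =>
    rw [FreeGroup.map.of, ev_of, ev_of]
    refine hh_ext (fun l' => ?_) (fun l' => ?_)
    · rw [dnv_new]
      refine Pi.single_eq_of_ne (fun h => ?_) _
      exact (not_hi_iff m r (hiE m r l')).2 ⟨l, h.symm⟩ l' rfl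
    · rw [dnv_old]
      by_cases hh : l' = l
      · subst hh
        rw [Pi.single_eq_same, Pi.single_eq_same]
      · rw [Pi.single_eq_of_ne hh]
        exact Pi.single_eq_of_ne (fun h => hh ((loE m r).injective h)) _
  | inv_of l h =>
    rw [map_inv, ev_inv, ev_inv, h]
    have h1 := dnv_smul (r := r) (-1) (ev (FreeGroup.of l))
    rw [neg_one_smul, neg_one_smul] at h1
    exact h1.symm
  | mul x y hx hy => rw [map_mul, ev_mul, ev_mul, dnv_add, hx, hy]

theorem hact_dn_far {m r : ℕ} (φ : St m) (v : Hh m) :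
    hact (dn m r φ) (dnv m r v) = dnv m r (hact φ v) := by
  obtain ⟨x, rfl⟩ := ev_surj v
  rw [← ev_mapL, hact_ev, dn_map, ev_mapL, hact_ev]

theorem hact_dn_near {m r : ℕ} (φ : St m) (v : Hh r) :
    hact (dn m r φ) (upv m r v) = upv m r v := by
  obtain ⟨x, rfl⟩ := ev_surj v
  rw [← ev_map, hact_ev, dn_near, ev_map]

end Pool.Agent.TOR.SA
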