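import Pool.Agent.Helper36_TOR.Defs
import Pool.Agent.Helper20_TWS.Defs

/-! Part (a) of S01763, action side: statements. -/

set_option autoImplicit false

namespace Pool.Agent.TOR.SA

open CategoryTheory Rep Representation Pool.Agent.TOR Pool.Agent.TOR.H58 Pool.Agent.TOR.H59
open Pool.Agent.TOR96 Pool.Agent.TOR.H29

/-- local quasi-unipotence of the transvections of primitive classes, in degree `q`, exponent `M`,
genus at least `c` -/
def LU (q M c : ℕ) : Prop :=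
  ∀ n, c ≤ n → ∀ v : Hh n, Prm v → ∀ τ : St n, IsTv v 1 τ →
    ∀ x : groupHomology (Rep.trivial ℚ (IT n) ℚ) q,
      ∃ a : ℕ, (((cR (IT n) q τ) ^ M - 1) ^ a) x = 0

theorem up_IT {m r : ℕ} (φ : St r) (hφ : φ ∈ IT r) : up m r φ ∈ IT (m + r) := by
  rw [mem_IT_iff] at *
  have h : (ex : FF (m + r) →* _).comp (up m r φ).1.toMonoidHom = ex := by
    refine FreeGroup.ext_hom _ _ fun l => ?_
    change ex (app (up m r φ) (FreeGroup.of l)) = ex (FreeGroup.of l)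
    rcases split_eq l with ⟨l', rfl⟩ | ⟨l', rfl⟩
    · have h1 : (FreeGroup.of (hiE m r l') : FF (m + r)) =
          FreeGroup.map (hiE m r) (FreeGroup.of l') := by rw [FreeGroup.map.of]
      rw [h1, up_map]
      apply Multiplicative.toAdd.injective
      change ev _ = ev _
      rw [ev_map, ev_map, hφ]
    · rw [up_of]
  intro x
  exact congrArg Multiplicative.toAdd (DFunLike.congr_fun h x)

/-- extension by the identity on the Torelli groups -/
noncomputable def upI (m r : ℕ) : IT r →* IT (m + r) :=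
  ((up m r).comp (IT r).subtype).codRestrict (IT (m + r)) fun φ => up_IT _ φ.2

theorem upI_coe {m r : ℕ} (φ : IT r) : ((upI m r φ : IT (m + r)) : St (m + r)) = up m r φ.1 := rfl

/-- near quasi-unipotence: near part of genus `r`, `K` far handles -/
def NU (q M K c : ℕ) : Prop :=
  ∀ r, c ≤ r → ∀ v : Hh r, Prm v → ∀ τ : St r, IsTv v 1 τ →
    ∀ x : groupHomology (Rep.trivial ℚ (IT r) ℚ) q,
      ∃ a : ℕ, (((cR (IT (K + r)) q (up K r τ)) ^ M - 1) ^ a) (hn (upI K r) q x) = 0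

/-- vertices of the handle complex: gap, handle -/
abbrev VV (n : ℕ) : Type := ℕ × (FF n × FF n)

/-- the handle complex: handles at different gaps in `J`, pairwise compatible, orthogonal to `v` -/
def HC (n : ℕ) (v : Hh n) (J : Set ℕ) (s : Set (VV n)) : Prop :=
  (∀ z ∈ s, z.1 ∈ J ∧ Hnd (sR n) z.2.1 z.2.2 ∧ sf (ev z.2.1) v = 0 ∧ sf (ev z.2.2) v = 0) ∧
  (∀ z ∈ s, ∀ z' ∈ s, z.1 = z'.1 → z = z') ∧
  (∀ p ∈ TWS.uz s, ∀ q ∈ TWS.uz s, Cmp (sR n) p.1 p.2 q.1 q.2)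

theorem HC.mono {n : ℕ} {v : Hh n} {J : Set ℕ} :
    ∀ s t, s ⊆ t → HC n v J t → HC n v J s := by
  rintro s t h ⟨h1, h2, h3⟩
  refine ⟨fun z hz => h1 z (h hz), fun z hz z' hz' => h2 z (h hz) z' (h hz'), ?_⟩
  have h4 : TWS.uz s ⊆ TWS.uz t := by
    rintro p ⟨z, hz, hp⟩
    exact ⟨z, h hz, hp⟩
  exact fun p hp q hq => h3 p (h4 hp) q (h4 hq)

/-- Theorem R, one degree `q`, genus at least `G`, gaps `J` -/
def TRq (q G : ℕ) (J : Set ℕ) : Prop :=
  ∀ n, G ≤ n → ∀ v : Hh n, Nonempty (OX (HC n v J) 0) ∧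
    (0 < q → ∀ (A : Type) [AddCommGroup A] (c : OX (HC n v J) 0 →₀ A),
      auM (OX (HC n v J) 0) A c = 0 → ∃ b, bdM (OX (HC n v J)) (ofc HC.mono) A 0 b = c) ∧
    (∀ p, p + 1 < q → ∀ (A : Type) [AddCommGroup A] (c : OX (HC n v J) (p + 1) →₀ A),
      bdM (OX (HC n v J)) (ofc HC.mono) A p c = 0 →
        ∃ b, bdM (OX (HC n v J)) (ofc HC.mono) A (p + 1) b = c)

/-- Theorem R -/
def TR : Prop := ∀ q, ∃ G J, TRq q G J

/-- compatibility of handles at two gaps -/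
def CC4 {n : ℕ} (i : ℕ) (k l : FF n) (j : ℕ) (k' l' : FF n) : Prop :=
  Cmp (sR n) i k j k' ∧ Cmp (sR n) i k j l' ∧ Cmp (sR n) i l j k' ∧ Cmp (sR n) i l j l'

/-- change of coordinates -/
def CCH : Prop :=
  ∀ (n m : ℕ) (j : Fin m → ℕ), StrictMono j → ∀ k l : Fin m → FF n,
    (∀ i, Hnd (sR n) (k i) (l i)) →
    (∀ i i', i ≠ i' → CC4 (j i) (k i) (l i) (j i') (k i') (l i')) →
    ∃ (h : m ≤ n) (φ : St n), ∀ i, app φ (FreeGroup.of (0, Fin.castLE h i)) = k i ∧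
      app φ (FreeGroup.of (1, Fin.castLE h i)) = l i

/-- transitivity on primitive classes -/
def TRV : Prop :=
  ∀ (n : ℕ) (hn : 0 < n) (v : Hh n), Prm v → ∃ φ : St n,
    ev (app φ (FreeGroup.of ((0 : Fin 2), (⟨0, hn⟩ : Fin n)))) = v

/-- result of the action side -/
def MAIN : Prop :=
  TR → CCH → TRV → (∀ q, ∃ M K c, 1 ≤ M ∧ NU q M K c) → ∀ q, ∃ M c, 1 ≤ M ∧ LU q M c

end Pool.Agent.TOR.SA
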