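import Pool.Agent.Helper59_TOR.Std
import Pool.Agent.Helper96_TOR.Out
import Pool.Agent.Helper96_TOR.StdS
import Pool.Agent.Helper29_TOR.If3
import Pool.Agent.Helper41_TOR.Gn
import Pool.Agent.Helper41_TOR.Tz
import Pool.Agent.Helper72_TOR.Zs

/-! Part (a) of S01763, action side: definitions. -/

set_option autoImplicit false

namespace Pool.Agent.TOR.SA

open CategoryTheory Rep Representation Pool.Agent.TOR Pool.Agent.TOR.H58 Pool.Agent.TOR.H59
open Pool.Agent.TOR96 Pool.Agent.TOR.H29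

/-- the free group of the surface of genus `n` -/
abbrev FF (n : ℕ) := FreeGroup (Fin 2 × Fin n)

/-- its homology -/
abbrev Hh (n : ℕ) := Fin 2 × Fin n → ℤ

/-- mapping class group of the surface of genus `n` with one boundary component -/
def St (n : ℕ) : Subgroup (MulAut (FF n)) where
  carrier := {φ | φ (zeta n) = zeta n}
  one_mem' := rfl
  mul_mem' := by
    intro a b ha hb
    change (a * b) (zeta n) = zeta n
    rw [MulAut.mul_apply, hb, ha]
  inv_mem' := by
    intro a ha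
    change a⁻¹ (zeta n) = zeta n
    have h : a (zeta n) = zeta n := ha
    conv_lhs => rw [← h]
    exact MulAut.inv_apply_self _ a _

theorem mem_St {n : ℕ} (φ : MulAut (FF n)) : φ ∈ St n ↔ φ (zeta n) = zeta n := Iff.rfl

/-- application -/
def app {n : ℕ} (φ : St n) (x : FF n) : FF n := (φ : MulAut (FF n)) x

theorem app_mul {n : ℕ} (φ : St n) (x y : FF n) : app φ (x * y) = app φ x * app φ y :=
  map_mul _ _ _

theorem mul_app {n : ℕ} (φ ψ : St n) (x : FF n) : app (φ * ψ) x = app φ (app ψ x) := rfl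

theorem one_app {n : ℕ} (x : FF n) : app (1 : St n) x = x := rfl

theorem inv_app_self {n : ℕ} (φ : St n) (x : FF n) : app φ⁻¹ (app φ x) = x := by
  rw [← mul_app, inv_mul_cancel]; rfl

theorem app_inv_self {n : ℕ} (φ : St n) (x : FF n) : app φ (app φ⁻¹ x) = x := by
  rw [← mul_app, mul_inv_cancel]; rfl

/-- the stabiliser is determined by the values on letters -/
theorem st_ext {n : ℕ} {φ ψ : St n} (h : ∀ x, app φ x = app ψ x) : φ = ψ :=
  Subtype.ext (MulEquiv.ext h)

/-- Torelli group, as a subgroup of the mapping class group -/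
def IT (n : ℕ) : Subgroup (St n) where
  carrier := {φ | ∀ x, Abelianization.of (app φ x) = Abelianization.of x}
  one_mem' := fun x => rfl
  mul_mem' := by
    intro a b ha hb x
    have h := ha (app b x)
    rw [mul_app, h, hb]
  inv_mem' := by
    intro a ha x
    have h := ha (app a⁻¹ x)
    rw [app_inv_self] at h
    exact h.symm

theorem mem_IT {n : ℕ} (φ : St n) : φ ∈ IT n ↔
    ∀ x, Abelianization.of (app φ x) = Abelianization.of x := Iff.rfl

theorem mem_IT_iff {n : ℕ} (φ : St n) : φ ∈ IT n ↔ ∀ x, ev (app φ x) = ev x := by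
  rw [mem_IT]
  exact forall_congr' fun x => ab_iff_ev

theorem ab_app {n : ℕ} (φ : St n) {x y : FF n} (h : ev x = ev y) :
    ev (app φ x) = ev (app φ y) := by
  rw [← ab_iff_ev] at *
  have h1 := congrArg (Abelianization.map (φ.1 : FF n ≃* FF n).toMonoidHom) h
  rw [Abelianization.map_of, Abelianization.map_of] at h1
  exact h1

instance IT_normal (n : ℕ) : (IT n).Normal where
  conj_mem := by
    intro t ht g
    rw [mem_IT_iff] at *
    intro x
    rw [mul_app, mul_app]
    have h := ab_app g (ht (app g⁻¹ x))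
    rw [h, app_inv_self]

theorem sf_app {n : ℕ} (φ : St n) (x y : FF n) : sf (ev (app φ x)) (ev (app φ y)) = sf (ev x) (ev y) := by
  rcases Nat.eq_zero_or_pos n with rfl | hn
  · unfold sf; simp
  · exact sf_ap hn φ.1 φ.2 x y

/-- every class is the class of an element -/
theorem ev_surj {n : ℕ} (v : Hh n) : ∃ x : FF n, ev x = v := by
  have key : ∀ s : Finset (Fin 2 × Fin n), ∃ x : FF n,
      ev x = ∑ l ∈ s, v l • (Pi.single l 1 : Hh n) := by
    intro s
    induction s using Finset.induction_on with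
    | empty => exact ⟨1, by rw [ev_one]; rfl⟩
    | insert a s ha ih =>
      obtain ⟨x, hx⟩ := ih
      refine ⟨FreeGroup.of a ^ (v a) * x, ?_⟩
      rw [ev_mul, hx, Finset.sum_insert ha]
      congr 1
      unfold ev
      rw [map_zpow, toAdd_zpow]
      congr 1
      exact ev_of a
  obtain ⟨x, hx⟩ := key Finset.univ
  refine ⟨x, ?_⟩
  rw [hx]
  funext l
  rw [Finset.sum_apply, Finset.sum_eq_single l]
  · simp
  · intro b _ hb
    rw [Pi.smul_apply, Pi.single_eq_of_ne (Ne.symm hb), smul_zero]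
  · intro h; exact absurd (Finset.mem_univ _) h

/-- action on homology -/
noncomputable def hact {n : ℕ} (φ : St n) (v : Hh n) : Hh n := ev (app φ (ev_surj v).choose)

theorem hact_ev {n : ℕ} (φ : St n) (x : FF n) : hact φ (ev x) = ev (app φ x) :=
  ab_app φ (ev_surj (ev x)).choose_spec

theorem hact_eq {n : ℕ} (φ : St n) {v : Hh n} {x : FF n} (h : ev x = v) :
    hact φ v = ev (app φ x) := by rw [← h, hact_ev]

theorem sf_hact {n : ℕ} (φ : St n) (v w : Hh n) : sf (hact φ v) (hact φ w) = sf v w := by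
  obtain ⟨x, rfl⟩ := ev_surj v
  obtain ⟨y, rfl⟩ := ev_surj w
  rw [hact_ev, hact_ev, sf_app]

theorem hact_add {n : ℕ} (φ : St n) (v w : Hh n) : hact φ (v + w) = hact φ v + hact φ w := by
  obtain ⟨x, rfl⟩ := ev_surj v
  obtain ⟨y, rfl⟩ := ev_surj w
  rw [← ev_mul, hact_ev, app_mul, ev_mul, hact_ev, hact_ev]

theorem hact_mul {n : ℕ} (φ ψ : St n) (v : Hh n) : hact (φ * ψ) v = hact φ (hact ψ v) := by
  obtain ⟨x, rfl⟩ := ev_surj v
  rw [hact_ev, hact_ev, hact_ev, mul_app]

theorem hact_one {n : ℕ} (v : Hh n) : hact (1 : St n) v = v := by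
  obtain ⟨x, rfl⟩ := ev_surj v
  rw [hact_ev, one_app]

/-- hact as an additive homomorphism -/
noncomputable def hactH {n : ℕ} (φ : St n) : Hh n →+ Hh n where
  toFun := hact φ
  map_zero' := by
    have h := hact_add φ (0 : Hh n) 0
    rw [add_zero] at h
    simpa using h
  map_add' := hact_add φ

theorem hact_smul {n : ℕ} (φ : St n) (k : ℤ) (v : Hh n) : hact φ (k • v) = k • hact φ v :=
  map_zsmul (hactH φ) k v

theorem hact_zero {n : ℕ} (φ : St n) : hact φ 0 = 0 := map_zero (hactH φ)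

/-- primitive classes -/
def Prm {n : ℕ} (v : Hh n) : Prop := ∃ w : Hh n, sf v w = 1

theorem Prm.ne_zero {n : ℕ} {v : Hh n} (hv : Prm v) : v ≠ 0 := by
  rintro rfl
  obtain ⟨w, hw⟩ := hv
  rw [sf_zero_left] at hw
  exact absurd hw (by norm_num)

theorem Prm.hact {n : ℕ} {v : Hh n} (hv : Prm v) (φ : St n) : Prm (hact φ v) := by
  obtain ⟨w, hw⟩ := hv
  exact ⟨SA.hact φ w, by rw [sf_hact, hw]⟩

/-- φ acts on homology as the k-th power of the transvection `x ↦ x + ω(x,v) v` -/
def IsTv {n : ℕ} (v : Hh n) (k : ℤ) (φ : St n) : Prop :=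
  ∀ x, ev (app φ x) = ev x + (k * sf (ev x) v) • v

theorem IsTv.mul {n : ℕ} {v : Hh n} {k l : ℤ} {a b : St n} (ha : IsTv v k a) (hb : IsTv v l b) :
    IsTv v (k + l) (a * b) := by
  intro x
  have h : sf (ev x + (l * sf (ev x) v) • v) v = sf (ev x) v := by
    rw [sf_add_left, sf_smul_left, sf_self, mul_zero, add_zero]
  rw [mul_app, ha, hb, h, add_assoc, ← add_smul]
  congr 2
  ring

theorem IsTv.one {n : ℕ} (v : Hh n) : IsTv v 0 (1 : St n) := by
  intro x
  rw [one_app]; simp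

theorem IsTv.inv {n : ℕ} {v : Hh n} {k : ℤ} {a : St n} (ha : IsTv v k a) : IsTv v (-k) a⁻¹ := by
  intro x
  have h := ha (app a⁻¹ x)
  rw [app_inv_self] at h
  have h2 : sf (ev x) v = sf (ev (app a⁻¹ x)) v := by
    conv_lhs => rw [h]
    rw [sf_add_left, sf_smul_left, sf_self, mul_zero, add_zero]
  rw [h2]
  conv_rhs => rw [h]
  rw [add_assoc, ← add_smul]
  have : k * sf (ev (app a⁻¹ x)) v + -k * sf (ev (app a⁻¹ x)) v = 0 := by ring
  rw [this, zero_smul, add_zero]

/-- elements acting on homology as a power of the transvection `x ↦ x + ω(x,v) v` -/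
def Gam {n : ℕ} (v : Hh n) : Subgroup (St n) where
  carrier := {φ | ∃ k : ℤ, IsTv v k φ}
  one_mem' := ⟨0, IsTv.one v⟩
  mul_mem' := by
    rintro a b ⟨k, hk⟩ ⟨l, hl⟩
    exact ⟨k + l, hk.mul hl⟩
  inv_mem' := by
    rintro a ⟨k, hk⟩
    exact ⟨-k, hk.inv⟩

theorem mem_Gam {n : ℕ} {v : Hh n} {φ : St n} : φ ∈ Gam v ↔ ∃ k : ℤ, IsTv v k φ := Iff.rfl

/-- the power `k` -/
noncomputable def dg {n : ℕ} {v : Hh n} (φ : Gam v) : ℤ := (mem_Gam.1 φ.2).choose

theorem dg_spec {n : ℕ} {v : Hh n} (φ : Gam v) : IsTv v (dg φ) φ.1 :=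
  (mem_Gam.1 φ.2).choose_spec

theorem exists_sf_ne {n : ℕ} {v : Hh n} (hv : v ≠ 0) : ∃ x : FF n, sf (ev x) v ≠ 0 := by
  by_contra hcon
  push Not at hcon
  apply hv
  funext l
  obtain ⟨a, j⟩ := l
  have h0 := hcon (FreeGroup.of (1, j))
  have h1 := hcon (FreeGroup.of (0, j))
  rw [ev_of, sf_single_left] at h0 h1
  fin_cases a
  · change v (0, j) = 0
    simpa using h0
  · change v (1, j) = 0
    simpa using h1

theorem IsTv.unique {n : ℕ} {v : Hh n} (hv : v ≠ 0) {k l : ℤ} {φ : St n} (h1 : IsTv v k φ)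
    (h2 : IsTv v l φ) : k = l := by
  obtain ⟨x, hx⟩ := exists_sf_ne hv
  have h3 := h1 x
  rw [h2 x] at h3
  have h4 := add_left_cancel h3
  rw [← sub_eq_zero, ← sub_smul, smul_eq_zero] at h4
  rcases h4 with h4 | h4
  · rw [← sub_mul] at h4
    rcases mul_eq_zero.1 h4 with h5 | h5
    · omega
    · exact absurd h5 hx
  · exact absurd h4 hv

theorem dg_eq {n : ℕ} {v : Hh n} (hv : v ≠ 0) (φ : Gam v) (k : ℤ) (h : IsTv v k φ.1) :
    dg φ = k := IsTv.unique hv (dg_spec φ) h

/-- degree as a homomorphism (trivial for v = 0) -/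
noncomputable def dgm {n : ℕ} (v : Hh n) : Gam v →* Multiplicative ℤ := by
  classical
  exact if hv : v = 0 then 1 else
    { toFun := fun φ => Multiplicative.ofAdd (dg φ)
      map_one' := by
        have : dg (1 : Gam v) = 0 := dg_eq hv _ _ (IsTv.one v)
        rw [this]; rfl
      map_mul' := by
        intro a b
        rw [← ofAdd_add]
        congr 1
        exact dg_eq hv _ _ ((dg_spec a).mul (dg_spec b)) }

theorem dgm_apply {n : ℕ} {v : Hh n} (hv : v ≠ 0) (φ : Gam v) :
    dgm v φ = Multiplicative.ofAdd (dg φ) := by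
  unfold dgm
  rw [dif_neg hv]; rfl

theorem dgm_eq {n : ℕ} {v : Hh n} (hv : v ≠ 0) (φ : Gam v) {k : ℤ} (h : IsTv v k φ.1) :
    dgm v φ = Multiplicative.ofAdd k := by
  rw [dgm_apply hv, dg_eq hv φ k h]

theorem isTv_zero_iff {n : ℕ} (v : Hh n) (φ : St n) : IsTv v 0 φ ↔ φ ∈ IT n := by
  rw [mem_IT_iff]
  refine forall_congr' fun x => ?_
  rw [zero_mul, zero_smul, add_zero]

theorem IT_le_Gam {n : ℕ} (v : Hh n) : IT n ≤ Gam v := fun φ hφ =>
  ⟨0, (isTv_zero_iff v φ).2 hφ⟩

theorem dgm_eq_one {n : ℕ} {v : Hh n} (hv : v ≠ 0) (φ : Gam v) :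
    dgm v φ = 1 ↔ φ.1 ∈ IT n := by
  rw [← isTv_zero_iff v]
  constructor
  · intro h
    rw [dgm_apply hv] at h
    have h1 : dg φ = 0 := Multiplicative.ofAdd.injective (h.trans (ofAdd_zero).symm)
    rw [← h1]
    exact dg_spec φ
  · intro h
    rw [dgm_eq hv φ h]; rfl

/-! ### stabilisation: the first m handles are far, the last r handles are near -/

theorem up_mem {m r : ℕ} (φ : MulAut (FF r)) (hφ : φ ∈ St r) :
    TST.upE (hiE m r) φ ∈ St (m + r) := by
  rw [mem_St] at *
  exact ((std_stab m r _).2 ⟨φ, hφ, rfl⟩).1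

/-- extension by the identity on the far part -/
noncomputable def up (m r : ℕ) : St r →* St (m + r) :=
  ((TST.upE (hiE m r)).comp (St r).subtype).codRestrict (St (m + r)) fun φ => up_mem _ φ.2

theorem up_map {m r : ℕ} (φ : St r) (x : FF r) :
    app (up m r φ) (FreeGroup.map (hiE m r) x) = FreeGroup.map (hiE m r) (app φ x) :=
  TST.upE_map _ _ _

theorem up_of {m r : ℕ} (φ : St r) (l : Fin 2 × Fin m) :
    app (up m r φ) (FreeGroup.of (loE m r l)) = FreeGroup.of (loE m r l) :=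
  ((std_stab m r _).2 ⟨φ.1, φ.2, rfl⟩).2 l

/-- classes of the near part -/
def upv (m r : ℕ) (v : Hh r) : Hh (m + r) :=
  fun l => Fin.addCases (motive := fun _ => ℤ) (fun _ => 0) (fun j => v (l.1, j)) l.2

theorem upv_old {m r : ℕ} (v : Hh r) (l : Fin 2 × Fin r) : upv m r v (hiE m r l) = v l := by
  unfold upv hiE; simp

theorem upv_new {m r : ℕ} (v : Hh r) (l : Fin 2 × Fin m) : upv m r v (loE m r l) = 0 := by
  unfold upv loE; simp

theorem split_eq {m r : ℕ} (l : Fin 2 × Fin (m + r)) :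
    (∃ l', l = hiE m r l') ∨ (∃ l', l = loE m r l') := by
  obtain ⟨a, j⟩ := l
  induction j using Fin.addCases with
  | left i => exact Or.inr ⟨(a, i), rfl⟩
  | right i => exact Or.inl ⟨(a, i), rfl⟩

theorem hh_ext {m r : ℕ} {v w : Hh (m + r)} (h1 : ∀ l, v (hiE m r l) = w (hiE m r l))
    (h2 : ∀ l, v (loE m r l) = w (loE m r l)) : v = w := by
  funext l
  rcases split_eq l with ⟨l', rfl⟩ | ⟨l', rfl⟩
  · exact h1 l'
  · exact h2 l'

theorem upv_add {m r : ℕ} (v w : Hh r) : upv m r (v + w) = upv m r v + upv m r w := by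
  refine hh_ext (fun l => ?_) (fun l => ?_)
  · simp only [Pi.add_apply, upv_old]
  · simp only [Pi.add_apply, upv_new, add_zero]

theorem upv_smul {m r : ℕ} (k : ℤ) (w : Hh r) : upv m r (k • w) = k • upv m r w := by
  refine hh_ext (fun l => ?_) (fun l => ?_)
  · simp only [Pi.smul_apply, upv_old]
  · simp only [Pi.smul_apply, upv_new, smul_zero]

theorem upv_zero {m r : ℕ} : upv m r (0 : Hh r) = 0 := by
  refine hh_ext (fun l => ?_) (fun l => ?_)
  · rw [upv_old]; rfl
  · rw [upv_new]; rfl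

theorem sf_upv {m r : ℕ} (v w : Hh r) : sf (upv m r v) (upv m r w) = sf v w := by
  unfold sf
  rw [Fin.sum_univ_add]
  have h1 : ∀ (u : Hh r) (a : Fin 2) (i : Fin m), upv m r u (a, Fin.castAdd r i) = 0 :=
    fun u a i => upv_new u (a, i)
  have h2 : ∀ (u : Hh r) (a : Fin 2) (i : Fin r), upv m r u (a, Fin.natAdd m i) = u (a, i) :=
    fun u a i => upv_old u (a, i)
  simp only [h1, h2]
  simp

theorem ev_map {m r : ℕ} (x : FF r) : ev (FreeGroup.map (hiE m r) x) = upv m r (ev x) := by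
  induction x using FreeGroup.induction_on with
  | C1 => rw [map_one, ev_one, ev_one, upv_zero]
  | of l =>
    rw [FreeGroup.map.of, ev_of, ev_of]
    refine hh_ext (fun l' => ?_) (fun l' => ?_)
    · rw [upv_old]
      by_cases hh : l' = l
      · subst hh
        rw [Pi.single_eq_same, Pi.single_eq_same]
      · rw [Pi.single_eq_of_ne hh]
        exact Pi.single_eq_of_ne (fun h => hh ((hiE m r).injective h)) _
    · rw [upv_new]
      refine Pi.single_eq_of_ne (fun h => ?_) _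
      exact (not_hi_iff m r (loE m r l')).2 ⟨l', rfl⟩ l h.symm
  | inv_of l h =>
    rw [map_inv, ev_inv, ev_inv, h]
    have h1 := upv_smul (m := m) (-1) (ev (FreeGroup.of l))
    rw [neg_one_smul, neg_one_smul] at h1
    exact h1.symm
  | mul x y hx hy => rw [map_mul, ev_mul, ev_mul, upv_add, hx, hy]

theorem Prm.up {m r : ℕ} {v : Hh r} (hv : Prm v) : Prm (upv m r v) := by
  obtain ⟨w, hw⟩ := hv
  exact ⟨upv m r w, by rw [sf_upv, hw]⟩

end Pool.Agent.TOR.SA
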