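import Pool.Agent.Helper36_TOR.Gen

/-! Part (a) of S01763, action side: near classes, induction. -/

set_option autoImplicit false

namespace Pool.Agent.TOR.SA

open CategoryTheory CategoryTheory.Limits Rep Representation Pool.Agent.TOR Pool.Agent.TOR.H58
open Pool.Agent.TOR.H59 Pool.Agent.TOR96 Pool.Agent.TOR.H29

/-! ### a Dehn twist -/

section tv

variable {n : ℕ} (j0 : Fin n)

/-- `y_0 ↦ y_0 z` on letters -/
def tl (z : FF n) : FF n →* FF n :=
  FreeGroup.lift fun l => if l = ((1 : Fin 2), j0) then FreeGroup.of ((1 : Fin 2), j0) * z else FreeGroup.of l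

theorem tl_y (z : FF n) : tl j0 z (FreeGroup.of (1, j0)) = FreeGroup.of ((1 : Fin 2), j0) * z := by
  unfold tl; rw [FreeGroup.lift_apply_of, if_pos rfl]

theorem tl_ne (z : FF n) {l : Fin 2 × Fin n} (hl : l ≠ (1, j0)) :
    tl j0 z (FreeGroup.of l) = FreeGroup.of l := by
  unfold tl; rw [FreeGroup.lift_apply_of, if_neg hl]

theorem tl_x (z : FF n) (j : Fin n) : tl j0 z (FreeGroup.of (0, j)) = FreeGroup.of ((0 : Fin 2), j) :=
  tl_ne j0 z (fun h => by simpa using congrArg Prod.fst h)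

theorem tl_comp (z w : FF n) (hz : z * w = 1) (hw : tl j0 w z = z) :
    (tl j0 w).comp (tl j0 z) = MonoidHom.id _ := by
  refine FreeGroup.ext_hom _ _ fun l => ?_
  change tl j0 w (tl j0 z (FreeGroup.of l)) = FreeGroup.of l
  by_cases hl : l = (1, j0)
  · subst hl
    rw [tl_y, map_mul, tl_y, hw, mul_assoc]
    have : w * z = 1 := mul_eq_one_comm.1 hz
    rw [this, mul_one]
  · rw [tl_ne _ _ hl, tl_ne _ _ hl]

/-- the automorphism `y_0 ↦ y_0 x_0⁻¹` -/
def tA : MulAut (FF n) :=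
  MonoidHom.toMulEquiv (tl j0 (FreeGroup.of ((0 : Fin 2), j0))⁻¹) (tl j0 (FreeGroup.of ((0 : Fin 2), j0)))
    (tl_comp j0 _ _ (inv_mul_cancel _) (by rw [map_inv, tl_x]))
    (tl_comp j0 _ _ (mul_inv_cancel _) (by rw [tl_x]))

theorem tA_apply (x : FF n) : tA j0 x = tl j0 (FreeGroup.of ((0 : Fin 2), j0))⁻¹ x := rfl

theorem tA_zeta : tA j0 (zeta n) = zeta n := by
  rw [tA_apply]
  unfold zeta
  rw [map_list_prod, List.map_map]
  congr 1
  refine List.map_congr_left fun j _ => ?_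
  simp only [Function.comp, map_mul, map_inv, tl_x]
  by_cases hj : j = j0
  · subst hj
    rw [tl_y]; group
  · rw [tl_ne _ _ (fun h => hj (congrArg Prod.snd h))]

theorem isTv_tA : IsTv (Pi.single ((0 : Fin 2), j0) 1) 1 (⟨tA j0, tA_zeta j0⟩ : St n) := by
  intro x
  induction x using FreeGroup.induction_on with
  | C1 =>
    have : app (⟨tA j0, tA_zeta j0⟩ : St n) 1 = 1 := map_one _
    rw [this, ev_one, sf_zero_left, mul_zero, zero_smul, add_zero]
  | of l =>
    change ev (tl j0 (FreeGroup.of ((0 : Fin 2), j0))⁻¹ (FreeGroup.of l)) = _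
    obtain ⟨a, j⟩ := l
    by_cases hl : (a, j) = (1, j0)
    · obtain ⟨rfl, rfl⟩ := Prod.mk.inj hl
      rw [tl_y, ev_mul, ev_inv, ev_of, ev_of, sf_single_left]
      simp
    · rw [tl_ne _ _ hl, ev_of, sf_single_left]
      have h0 : (if a = 0 then (Pi.single ((0 : Fin 2), j0) 1 : Hh n) (1, j)
          else -(Pi.single ((0 : Fin 2), j0) 1 : Hh n) (0, j)) = 0 := by
        fin_cases a
        · simp
        · have hj : j ≠ j0 := fun h => hl (by rw [h]; rfl)
          simp [hj]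
      rw [h0, mul_zero, zero_smul, add_zero]
  | inv_of l hl =>
    have : app (⟨tA j0, tA_zeta j0⟩ : St n) (FreeGroup.of l)⁻¹ =
      (app (⟨tA j0, tA_zeta j0⟩ : St n) (FreeGroup.of l))⁻¹ := map_inv _ _
    rw [this, ev_inv, hl, ev_inv, sf_neg_left, neg_add, mul_neg, neg_smul]
  | mul x y hx hy =>
    rw [app_mul, ev_mul, hx, hy, ev_mul, sf_add_left, mul_add, add_smul]
    abel

end tv

theorem exists_tv (hT : TRV) {n : ℕ} (hn : 0 < n) {v : Hh n} (hv : Prm v) :
    ∃ τ : St n, IsTv v 1 τ := by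
  obtain ⟨φ, hφ⟩ := hT n hn v hv
  refine ⟨φ * ⟨tA ⟨0, hn⟩, tA_zeta _⟩ * φ⁻¹, ?_⟩
  have h1 := isTv_conj φ (isTv_tA (⟨0, hn⟩ : Fin n))
  have h2 : hact φ (Pi.single ((0 : Fin 2), (⟨0, hn⟩ : Fin n)) 1) = v := by
    rw [← ev_of, hact_ev, hφ]
  rwa [h2] at h1

/-! ### generation by the stabilisers of m handles -/

section step

variable {m r : ℕ} (φ : St (m + r)) {v : Hh (m + r)} {v' : Hh r} (h : hact φ (upv m r v') = v)
  (h1 : 1 ≤ r) (hm : m + 1 ≤ m + r) (φ' : St r)

theorem castLE_cases (a : Fin 2) (i : Fin (m + 1)) :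
    (∃ i' : Fin m, ((a, Fin.castLE hm i) : Fin 2 × Fin (m + r)) = loE m r (a, i')) ∨
      ((a, Fin.castLE hm i) : Fin 2 × Fin (m + r)) = hiE m r (a, Fin.castLE h1 0) := by
  rcases Nat.lt_or_ge i.val m with hi | hi
  · left
    refine ⟨⟨i.val, hi⟩, ?_⟩
    rfl
  · right
    have h2 := i.2
    have h3 : i.val = m := by omega
    refine Prod.ext rfl (Fin.ext ?_)
    change i.val = m + 0
    omega

theorem app_mul_up (a : Fin 2) (i : Fin (m + 1)) :
    (∃ i' : Fin m, ((a, Fin.castLE hm i) : Fin 2 × Fin (m + r)) = loE m r (a, i') ∧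
      app (φ * up m r φ') (FreeGroup.of (a, Fin.castLE hm i)) =
        app φ (FreeGroup.of (loE m r (a, i')))) ∨
      app (φ * up m r φ') (FreeGroup.of (a, Fin.castLE hm i)) =
        app φ (FreeGroup.map (hiE m r) (app φ' (FreeGroup.of (a, Fin.castLE h1 0)))) := by
  rcases castLE_cases h1 hm a i with ⟨i', hi'⟩ | hi'
  · left
    refine ⟨i', hi', ?_⟩
    rw [hi', mul_app, up_of]
  · right
    rw [hi', mul_app]
    have h2 : (FreeGroup.of (hiE m r (a, Fin.castLE h1 0)) : FF (m + r)) =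
        FreeGroup.map (hiE m r) (FreeGroup.of (a, Fin.castLE h1 0)) := by rw [FreeGroup.map.of]
    rw [h2, up_map]

include h in
theorem orth_step (ho : Orth v m (Nat.le_add_right m r) φ) (ho' : Orth v' 1 h1 φ') :
    Orth v (m + 1) hm (φ * up m r φ') := by
  intro a i
  rcases app_mul_up φ h1 hm φ' a i with ⟨i', _, h2⟩ | h2
  · rw [h2]
    exact ho a i'
  · rw [h2, ← hact_ev, ev_map, ← h, sf_hact, sf_upv]
    exact ho' a 0

theorem eH_mem (g : Gam v') (hg : g ∈ Ssub v' 1 h1 φ') :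
    eH φ h g ∈ Ssub v (m + 1) hm (φ * up m r φ') := by
  intro a i
  rw [eH_coe]
  rcases app_mul_up φ h1 hm φ' a i with ⟨i', _, h2⟩ | h2
  · rw [h2, mul_app, mul_app, inv_app_self, up_of]
  · rw [h2, mul_app, mul_app, inv_app_self, up_map]
    have h3 := hg a 0
    rw [h3]

end step

/-- generation by the stabilisers of `m` handles -/
theorem gnm {q M c : ℕ} (h1 : Gn1 q M c) : ∀ (m n : ℕ) (hmn : m ≤ n), c + m + 1 ≤ n →
    ∀ v : Hh n, Prm v → ∀ W : AddSubgroup (groupHomology (AA v M) q),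
    (∀ φ, Orth v m hmn φ → ∀ c, sbi (Ssub v m hmn φ) (AA v M) q c ∈ W) → ∀ y, y ∈ W := by
  intro m
  induction m with
  | zero =>
    intro n hmn hc v hv W hW y
    have htop : Ssub v 0 hmn (1 : St n) = ⊤ := by
      ext g
      simp only [Subgroup.mem_top, iff_true]
      exact fun a i => i.elim0
    have key : ∀ (S : Subgroup (Gam v)), S = ⊤ → ∃ c, sbi S (AA v M) q c = y := by
      rintro _ rfl
      exact gI_surj_of_equiv (Subgroup.topEquiv : (⊤ : Subgroup (Gam v)) ≃* Gam v)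
        (res (⊤ : Subgroup (Gam v)).subtype (AA v M)) (AA v M) (LinearEquiv.refl _ _)
        (fun g a => rfl) q y
    obtain ⟨c', hc'⟩ := key _ htop
    rw [← hc']
    exact hW 1 (fun a i => i.elim0) c'
  | succ m ih =>
    intro n hmn hc v hv W hW
    have hmn' : m ≤ n := by omega
    refine ih n hmn' (by omega) v hv W ?_
    intro φ ho c'
    obtain ⟨r, rfl⟩ := Nat.exists_eq_add_of_le hmn'
    obtain ⟨v', h⟩ := exists_near ho
    have hv' := prm_near h hv
    obtain ⟨x, hx⟩ := surj_eqS φ h hv.ne_zero hv'.ne_zero M q c'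
    rw [hx]
    have hr : 1 ≤ r := by omega
    have key := h1 r (by omega) hr v' hv' (W.comap (gI (eH φ h) (mk1 (eH φ h) (AA v' M) (AA v M)
      LinearMap.id (fun g a => rho_eH φ h hv.ne_zero hv'.ne_zero M g a)) q).toAddMonoidHom) ?_ x
    · exact key
    · intro φ' ho' c''
      have h2 := hW (φ * up m r φ') (orth_step φ h hr hmn φ' ho ho')
        (gI ((eH φ h).comp (Ssub v' 1 hr φ').subtype |>.codRestrict
          (Ssub v (m + 1) hmn (φ * up m r φ')) (fun g => eH_mem φ h hr hmn φ' g.1 g.2))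
          (mk1 _ (res (Ssub v' 1 hr φ').subtype (AA v' M))
            (res (Ssub v (m + 1) hmn (φ * up m r φ')).subtype (AA v M)) LinearMap.id
            (fun g a => rho_eH φ h hv.ne_zero hv'.ne_zero M g.1 a)) q c'')
      have e1 := gI_comp ((eH φ h).comp (Ssub v' 1 hr φ').subtype |>.codRestrict
          (Ssub v (m + 1) hmn (φ * up m r φ')) (fun g => eH_mem φ h hr hmn φ' g.1 g.2))
          (Ssub v (m + 1) hmn (φ * up m r φ')).subtype
          (mk1 _ (res (Ssub v' 1 hr φ').subtype (AA v' M))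
            (res (Ssub v (m + 1) hmn (φ * up m r φ')).subtype (AA v M)) LinearMap.id
            (fun g a => rho_eH φ h hv.ne_zero hv'.ne_zero M g.1 a))
          (𝟙 (res (Ssub v (m + 1) hmn (φ * up m r φ')).subtype (AA v M)))
          (mk1 ((eH φ h).comp (Ssub v' 1 hr φ').subtype)
            (res (Ssub v' 1 hr φ').subtype (AA v' M)) (AA v M) LinearMap.id
            (fun g a => rho_eH φ h hv.ne_zero hv'.ne_zero M g.1 a)) (fun _ => rfl) q c''
      have e2 := gI_comp (Ssub v' 1 hr φ').subtype (eH φ h)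
          (𝟙 (res (Ssub v' 1 hr φ').subtype (AA v' M)))
          (mk1 (eH φ h) (AA v' M) (AA v M) LinearMap.id
            (fun g a => rho_eH φ h hv.ne_zero hv'.ne_zero M g a))
          (mk1 ((eH φ h).comp (Ssub v' 1 hr φ').subtype)
            (res (Ssub v' 1 hr φ').subtype (AA v' M)) (AA v M) LinearMap.id
            (fun g a => rho_eH φ h hv.ne_zero hv'.ne_zero M g.1 a)) (fun _ => rfl) q c''
      have e3 := e1.trans e2.symm
      have h3 : gI (eH φ h) (mk1 (eH φ h) (AA v' M) (AA v M) LinearMap.id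
            (fun g a => rho_eH φ h hv.ne_zero hv'.ne_zero M g a)) q
          (sbi (Ssub v' 1 hr φ') (AA v' M) q c'') ∈ W := by
        unfold sbi at h2 ⊢
        rw [← e3]
        exact h2
      exact h3

end Pool.Agent.TOR.SA
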