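import Pool.Agent.Helper36_TOR.Tr

/-! Part (a) of S01763, action side: action on the handle complex, generation. -/

set_option autoImplicit false

namespace Pool.Agent.TOR.SA

open CategoryTheory CategoryTheory.Limits Rep Representation Pool.Agent.TOR Pool.Agent.TOR.H58
open Pool.Agent.TOR.H59 Pool.Agent.TOR96 Pool.Agent.TOR.H29

/-! ### the action -/

/-- action on the vertices -/
@[reducible] def vAct {n : ℕ} (v : Hh n) : MulAction (Gam v) (VV n) where
  smul g z := (z.1, (app g.1 z.2.1, app g.1 z.2.2))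
  one_smul _ := rfl
  mul_smul _ _ _ := rfl

theorem sf_gam {n : ℕ} {v : Hh n} (g : Gam v) (x : FF n) : sf (ev (app g.1 x)) v = sf (ev x) v := by
  obtain ⟨k, hk⟩ := g.2
  rw [hk, sf_add_left, sf_smul_left, sf_self, mul_zero, add_zero]

theorem hc_smul {n : ℕ} (hn : 0 < n) (v : Hh n) (J : Set ℕ) (g : Gam v) (s : Set (VV n))
    (hs : HC n v J s) :
    HC n v J ((fun z : VV n => ((z.1, (app g.1 z.2.1, app g.1 z.2.2)) : VV n)) '' s) := by
  obtain ⟨h1, h2, h3⟩ := hs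
  refine ⟨?_, ?_, ?_⟩
  · rintro _ ⟨z, hz, rfl⟩
    obtain ⟨a, b, c, d⟩ := h1 z hz
    refine ⟨a, (hnd_std hn g.1.1 g.1.2).2 b, ?_, ?_⟩
    · exact (sf_gam g _).trans c
    · exact (sf_gam g _).trans d
  · rintro _ ⟨z, hz, rfl⟩ _ ⟨z', hz', rfl⟩ h
    have := h2 z hz z' hz' h
    rw [this]
  · have key : ∀ p ∈ TWS.uz ((fun z : VV n => ((z.1, (app g.1 z.2.1, app g.1 z.2.2)) : VV n)) '' s),
        ∃ p' ∈ TWS.uz s, p = (p'.1, app g.1 p'.2) := by
      rintro p ⟨_, ⟨z, hz, rfl⟩, hp1, hp2⟩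
      rcases hp2 with hp2 | hp2
      · exact ⟨(z.1, z.2.1), ⟨z, hz, rfl, Or.inl rfl⟩, Prod.ext hp1 hp2⟩
      · exact ⟨(z.1, z.2.2), ⟨z, hz, rfl, Or.inr rfl⟩, Prod.ext hp1 hp2⟩
    intro p hp q hq
    obtain ⟨p', hp', rfl⟩ := key p hp
    obtain ⟨q', hq', rfl⟩ := key q hq
    exact (cmp_std hn g.1.1 g.1.2).2 (h3 p' hp' q' hq')

/-- action on ordered simplices -/
@[reducible] def xAct {n : ℕ} (hn : 0 < n) (v : Hh n) (J : Set ℕ) (p : ℕ) :
    MulAction (Gam v) (OX (HC n v J) p) :=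
  @oxAct (Gam v) (VV n) _ (vAct v) _ (fun g s hs => hc_smul hn v J g s hs) p

theorem mem_stab {n : ℕ} (hn : 0 < n) (v : Hh n) (J : Set ℕ) (p : ℕ) (x : OX (HC n v J) p)
    (g : Gam v) : g ∈ @MulAction.stabilizer (Gam v) _ _ (xAct hn v J p) x ↔
      ∀ i, app g.1 (x.1 i).2.1 = (x.1 i).2.1 ∧ app g.1 (x.1 i).2.2 = (x.1 i).2.2 := by
  let _ := xAct hn v J p
  rw [MulAction.mem_stabilizer_iff]
  constructor
  · intro h i
    have h1 := congrArg (fun y : OX (HC n v J) p => y.1 i) h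
    have h2 : ((x.1 i).1, (app g.1 (x.1 i).2.1, app g.1 (x.1 i).2.2)) = x.1 i := h1
    have h3 := congrArg (fun z : VV n => z.2.1) h2
    have h4 := congrArg (fun z : VV n => z.2.2) h2
    exact ⟨h3, h4⟩
  · intro h
    refine Subtype.ext (funext fun i => ?_)
    change ((x.1 i).1, (app g.1 (x.1 i).2.1, app g.1 (x.1 i).2.2)) = x.1 i
    rw [(h i).1, (h i).2]

/-- the stabiliser of an ordered simplex is the stabiliser of the first handles of a coordinate
system -/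
theorem stab_eq (hCC : CCH) {n : ℕ} (hn : 0 < n) (v : Hh n) (J : Set ℕ) (p : ℕ)
    (x : OX (HC n v J) p) : ∃ m, 1 ≤ m ∧ m ≤ p + 1 ∧ ∃ (h : m ≤ n) (φ : St n), Orth v m h φ ∧
      @MulAction.stabilizer (Gam v) _ _ (xAct hn v J p) x = Ssub v m h φ := by
  classical
  obtain ⟨h1, h2, h3⟩ := x.2
  set S : Finset ℕ := Finset.univ.image (fun i => (x.1 i).1) with hS
  have hm1 : 1 ≤ S.card := Finset.card_pos.2 ⟨(x.1 0).1, Finset.mem_image_of_mem _ (Finset.mem_univ _)⟩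
  have hm2 : S.card ≤ p + 1 := by
    refine Finset.card_image_le.trans ?_
    simp
  let j := S.orderEmbOfFin rfl
  have hj : ∀ i : Fin S.card, ∃ i' : Fin (p + 1), (x.1 i').1 = j i := by
    intro i
    have : j i ∈ S := Finset.orderEmbOfFin_mem S rfl i
    obtain ⟨i', _, hi'⟩ := Finset.mem_image.1 this
    exact ⟨i', hi'⟩
  choose idx hidx using hj
  have hmem : ∀ i, x.1 i ∈ Set.range x.1 := fun i => ⟨i, rfl⟩
  obtain ⟨h, φ, hφ⟩ := hCC n S.card (fun i => j i) (fun a b hab => j.strictMono hab)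
    (fun i => (x.1 (idx i)).2.1) (fun i => (x.1 (idx i)).2.2)
    (fun i => (h1 _ (hmem _)).2.1) (by
      intro i i' _
      have e1 : ((j i, (x.1 (idx i)).2.1) : ℕ × FF n) ∈ TWS.uz (Set.range x.1) :=
        ⟨x.1 (idx i), hmem _, (hidx i).symm, Or.inl rfl⟩
      have e2 : ((j i, (x.1 (idx i)).2.2) : ℕ × FF n) ∈ TWS.uz (Set.range x.1) :=
        ⟨x.1 (idx i), hmem _, (hidx i).symm, Or.inr rfl⟩
      have e3 : ((j i', (x.1 (idx i')).2.1) : ℕ × FF n) ∈ TWS.uz (Set.range x.1) :=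
        ⟨x.1 (idx i'), hmem _, (hidx i').symm, Or.inl rfl⟩
      have e4 : ((j i', (x.1 (idx i')).2.2) : ℕ × FF n) ∈ TWS.uz (Set.range x.1) :=
        ⟨x.1 (idx i'), hmem _, (hidx i').symm, Or.inr rfl⟩
      exact ⟨h3 _ e1 _ e3, h3 _ e1 _ e4, h3 _ e2 _ e3, h3 _ e2 _ e4⟩)
  refine ⟨S.card, hm1, hm2, h, φ, ?_, ?_⟩
  · intro a i
    fin_cases a
    · change sf (ev (app φ (FreeGroup.of (0, Fin.castLE h i)))) v = 0
      rw [(hφ i).1]
      exact (h1 _ (hmem _)).2.2.1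
    · change sf (ev (app φ (FreeGroup.of (1, Fin.castLE h i)))) v = 0
      rw [(hφ i).2]
      exact (h1 _ (hmem _)).2.2.2
  · ext g
    rw [mem_stab, mem_Ssub]
    constructor
    · intro hg a i
      fin_cases a
      · change app g.1 (app φ (FreeGroup.of (0, Fin.castLE h i))) =
          app φ (FreeGroup.of (0, Fin.castLE h i))
        rw [(hφ i).1]
        exact (hg _).1
      · change app g.1 (app φ (FreeGroup.of (1, Fin.castLE h i))) =
          app φ (FreeGroup.of (1, Fin.castLE h i))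
        rw [(hφ i).2]
        exact (hg _).2
    · intro hg i'
      have hi' : (x.1 i').1 ∈ Set.range j := by
        have h4 : Set.range j = (S : Set ℕ) := Finset.range_orderEmbOfFin S rfl
        rw [h4]
        exact Finset.mem_coe.2 (Finset.mem_image_of_mem _ (Finset.mem_univ _))
      obtain ⟨i, hi⟩ := hi'
      have h5 : x.1 i' = x.1 (idx i) := h2 _ (hmem _) _ (hmem _) (by rw [hidx i, hi])
      rw [h5]
      have h6 := hg 0 i
      have h7 := hg 1 i
      rw [(hφ i).1] at h6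
      rw [(hφ i).2] at h7
      exact ⟨h6, h7⟩

/-! ### transfer to the smaller surface -/

section tr

variable {m r : ℕ} (φ : St (m + r)) {v : Hh (m + r)} {v' : Hh r} (h : hact φ (upv m r v') = v)

/-- the smaller group is the stabiliser -/
noncomputable def eqS : Gam v' ≃* Ssub v m (Nat.le_add_right m r) φ :=
  MulEquiv.ofBijective ((eH φ h).codRestrict (Ssub v m (Nat.le_add_right m r) φ)
      (fun ψ => (range_eH φ h _).2 ⟨ψ, rfl⟩))
    ⟨fun a b hab => eH_injective φ h (congrArg Subtype.val hab), fun g => by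
      obtain ⟨ψ, hψ⟩ := (range_eH φ h g.1).1 g.2
      exact ⟨ψ, Subtype.ext hψ⟩⟩

theorem eqS_coe (ψ : Gam v') : ((eqS φ h ψ : Ssub v m (Nat.le_add_right m r) φ) : Gam v) =
    eH φ h ψ := rfl

variable (hv : v ≠ 0) (hv' : v' ≠ 0)
include h hv hv'

theorem chR_eH (M : ℕ) (ψ : Gam v') : chR v M (eH φ h ψ) = chR v' M ψ :=
  chR_eq M (dgm_eH φ h hv hv' ψ)

theorem rho_eH (M : ℕ) (ψ : Gam v') (a : RM M) :
    (AA v' M).ρ ψ a = (AA v M).ρ (eH φ h ψ) a := by
  have e1 : (AA v' M).ρ ψ a = chR v' M ψ * a := rfl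
  have e2 : (AA v M).ρ (eH φ h ψ) a = chR v M (eH φ h ψ) * a := rfl
  rw [e1, e2, chR_eH φ h hv hv']

theorem surj_eqS (M q : ℕ)
    (c : groupHomology (res (Ssub v m (Nat.le_add_right m r) φ).subtype (AA v M)) q) :
    ∃ x : groupHomology (AA v' M) q, sbi (Ssub v m (Nat.le_add_right m r) φ) (AA v M) q c =
      gI (eH φ h) (mk1 (eH φ h) (AA v' M) (AA v M) LinearMap.id
        (fun g a => rho_eH φ h hv hv' M g a)) q x := by
  obtain ⟨x, rfl⟩ := gI_surj_of_equiv (eqS φ h) (AA v' M)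
    (res (Ssub v m (Nat.le_add_right m r) φ).subtype (AA v M)) (LinearEquiv.refl _ _)
    (fun g a => rho_eH φ h hv hv' M g a) q c
  refine ⟨x, ?_⟩
  exact gI_comp _ _ _ _ _ (fun _ => rfl) q x

theorem van_Ssub (M q : ℕ) (hA : Van (AA v' M) q) :
    Van (res (Ssub v m (Nat.le_add_right m r) φ).subtype (AA v M)) q :=
  van_of_equiv (eqS φ h) (AA v' M)
    (res (Ssub v m (Nat.le_add_right m r) φ).subtype (AA v M)) (LinearEquiv.refl _ _)
    (fun g a => rho_eH φ h hv hv' M g a) q hA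

end tr

/-- vanishing for the stabilisers -/
theorem van_stab (hCC : CCH) {n : ℕ} (hn : 0 < n) {v : Hh n} (hv : Prm v) (J : Set ℕ) (p : ℕ)
    (x : OX (HC n v J) p) {q M c : ℕ} (hVA : VA q M c) (hc : c + p + 1 ≤ n) :
    Van (res (@MulAction.stabilizer (Gam v) _ _ (xAct hn v J p) x).subtype (AA v M)) q := by
  obtain ⟨m, hm1, hm2, h, φ, ho, he⟩ := stab_eq hCC hn v J p x
  rw [he]
  obtain ⟨r, rfl⟩ := Nat.exists_eq_add_of_le h
  obtain ⟨v', hv'⟩ := exists_near ho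
  have hp := prm_near hv' hv
  exact van_Ssub φ hv' hv.ne_zero hp.ne_zero M q (hVA r (by omega) v' hp)

/-- GEN: generation by the stabilisers of one handle -/
def Gn1 (q M c : ℕ) : Prop := ∀ n, c ≤ n → ∀ (h : 1 ≤ n) (v : Hh n), Prm v →
  ∀ W : AddSubgroup (groupHomology (AA v M) q),
    (∀ φ, Orth v 1 h φ → ∀ c, sbi (Ssub v 1 h φ) (AA v M) q c ∈ W) → ∀ y, y ∈ W

theorem gn1 (hCC : CCH) {q M c G : ℕ} {J : Set ℕ} (hTR : TRq q G J)
    (hVA : ∀ q' < q, VA q' M c) : Gn1 q M (G + c + q + 1) := by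
  intro n hc hn v hv W hW
  obtain ⟨hne, h0, hex⟩ := hTR n (by omega) v
  let _ : ∀ p, MulAction (Gam v) (OX (HC n v J) p) := fun p => xAct hn v J p
  have : Nonempty (OX (HC n v J) 0) := hne
  refine gen_of_action (OX (HC n v J)) (ofc HC.mono) q (AA v M) ?_ ?_ ?_ ?_ ?_ W ?_
  · intro p i g x
    rfl
  · intro p i j h x
    exact ofc_ofc _ p i j h x
  · intro hq c' hc'
    exact h0 hq _ c' hc'
  · intro p hp c' hc'
    exact hex p hp _ c' hc'
  · intro p hp1 hp2 x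
    exact van_stab hCC hn hv J p x (hVA (q - p) (by omega)) (by omega)
  · intro x c'
    obtain ⟨m, hm1, hm2, h, φ, ho, he⟩ := stab_eq hCC hn v J 0 x
    have hm : m = 1 := by omega
    subst hm
    have key : ∀ (S : Subgroup (Gam v)), S = Ssub v 1 h φ →
        ∀ c', gI S.subtype (𝟙 (res S.subtype (AA v M))) q c' ∈ W := by
      rintro _ rfl c'
      exact hW φ ho c'
    exact key _ he c'

end Pool.Agent.TOR.SA
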