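import Pool.Agent.Helper36_TOR.Main
import Pool.Agent.Helper96_TOR.Trv

/-! Part (a) of S01763, action side: glue. -/

set_option autoImplicit false

namespace Pool.Agent.TOR.SA

open Pool.Agent.TOR Pool.Agent.TOR.H59 Pool.Agent.TOR96 Pool.Agent.TOR.H29

theorem trv_final : TRV := by
  intro n hn v hv
  obtain ⟨φ, h1, h2⟩ := trv hn v hv
  exact ⟨⟨φ, h1⟩, h2⟩

end Pool.Agent.TOR.SA
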