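import Pool.Agent.Helper36_TOR.Glue
import Pool.Agent.Helper59_TOR.Cch
import Pool.Agent.Helper96_TOR.Cc2
import Pool.Agent.Helper20_TWS.Fin

/-! Part (a) of S01763: change of coordinates, glue. -/

set_option autoImplicit false

namespace Pool.Agent.TOR.SA

open Pool.Agent.TOR Pool.Agent.TOR.H59 Pool.Agent.TOR96 Pool.Agent.TOR.H29

theorem cch_final : CCH := by
  intro n m j hj k l hh hc
  have h2 : CC2S := by
    intro α _ _ R Z hZ hall m a b hblk hord
    exact cc2 R hZ hall a b hblk hord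
  obtain ⟨hmn, φ, h1, h3⟩ := cch h2 n m j hj k l hh hc
  exact ⟨hmn, ⟨φ, h1⟩, h3⟩

/-- what remains: Theorem R and near-far -/
theorem lu_of (hTR : TR) (hN : ∀ q, ∃ N K c, 1 ≤ N ∧ NU q N K c) (q : ℕ) :
    ∃ M c, 1 ≤ M ∧ LU q M c := main hTR cch_final trv_final hN q

end Pool.Agent.TOR.SA
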