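import Pool.Agent.Helper36_TOR.Glue
import Pool.Agent.Helper56_TOR.Heis

/-! Part (a) of S01763: from quasi-unipotence of the elements E(v,w), v near, w far, to the
transvections of near classes. -/

set_option autoImplicit false

namespace Pool.Agent.TOR.SA

open CategoryTheory CategoryTheory.Limits Rep Representation Pool.Agent.TOR Pool.Agent.TOR.H58
open Pool.Agent.TOR.H59 Pool.Agent.TOR96 Pool.Agent.TOR.H29

/-- ψ acts on homology as `x ↦ x + ω(x,v) w + ω(x,w) v` -/
def IsE {n : ℕ} (v w : Hh n) (ψ : St n) : Prop :=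
  ∀ x, ev (app ψ x) = ev x + sf (ev x) v • w + sf (ev x) w • v

/-- quasi-unipotence of `E(v,w)` on near classes, `v` near, `w` the class of a letter of one far
handle -/
def NE (q N K c : ℕ) : Prop :=
  ∃ i : Fin K, ∀ r, c ≤ r → ∀ v : Hh r, Prm v → ∀ (a : Fin 2) (ψ : St (K + r)),
    IsE (upv K r v) (Pi.single (loE K r (a, i)) 1) ψ →
    ∀ x : groupHomology (Rep.trivial ℚ (IT r) ℚ) q,
      ∃ m : ℕ, (((cR (IT (K + r)) q ψ) ^ N - 1) ^ m) (hn (upI K r) q x) = 0

theorem exists_isE {n : ℕ} (hn : 0 < n) {v w : Hh n} (hv : Prm v) (hw : Prm w)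
    (hvw : Prm (v + w)) (h0 : sf v w = 0) : ∃ ψ : St n, IsE v w ψ := by
  obtain ⟨a, ha⟩ := exists_tv trv_final hn hv
  obtain ⟨b, hb⟩ := exists_tv trv_final hn hw
  obtain ⟨c, hc⟩ := exists_tv trv_final hn hvw
  refine ⟨c * (a⁻¹ * b⁻¹), fun x => ?_⟩
  have h0' : sf w v = 0 := by rw [sf_swap, h0, neg_zero]
  have h1 := hb.inv x
  have h2 := ha.inv (app b⁻¹ x)
  have h3 := hc (app a⁻¹ (app b⁻¹ x))
  rw [mul_app, mul_app, h3, h2, h1]
  simp only [sf_add_left, sf_add_right, sf_smul_left, sf_self, h0, h0', mul_zero, add_zero,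
    smul_add]
  module

/-- cR depends only on the action on homology -/
theorem cR_eq {n : ℕ} (q : ℕ) (a b : St n) (h : ∀ x, ev (app a x) = ev (app b x)) :
    cR (IT n) q a = cR (IT n) q b := by
  have h1 : b⁻¹ * a ∈ IT n := by
    rw [mem_IT_iff]
    intro x
    rw [mul_app]
    have h2 := ab_app b⁻¹ (h x)
    rw [h2, inv_app_self]
  have h3 := cR_mem (IT n) q _ h1
  have h4 : a = b * (b⁻¹ * a) := by group
  rw [h4, map_mul, h3, mul_one]

section rel

variable {n : ℕ} {v e f : Hh n}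

theorem e_rel (h1 : sf e v = 0) (h2 : sf f v = 0) (h3 : sf e f = 1) (q : ℕ) {A B T : St n}
    (hA : IsE v e A) (hB : IsE v f B) (hT : IsTv v 1 T) :
    cR (IT n) q B * cR (IT n) q A =
      (cR (IT n) q T) ^ 2 * cR (IT n) q A * cR (IT n) q B := by
  rw [← map_pow, ← map_mul, ← map_mul, ← map_mul]
  refine cR_eq q _ _ fun x => ?_
  have h1' : sf v e = 0 := by rw [sf_swap, h1, neg_zero]
  have h2' : sf v f = 0 := by rw [sf_swap, h2, neg_zero]
  have h3' : sf f e = -1 := by rw [sf_swap, h3]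
  have e1 : ev (app (A * B) x) = ev x + sf (ev x) v • f + sf (ev x) f • v + sf (ev x) v • e +
      (sf (ev x) e - sf (ev x) v) • v := by
    rw [mul_app, hA, hB]
    simp only [sf_add_left, sf_smul_left, sf_self, h1', h2, h3', mul_zero, add_zero]
    module
  have e2 : ev (app (B * A) x) = ev x + sf (ev x) v • e + sf (ev x) e • v + sf (ev x) v • f +
      (sf (ev x) f + sf (ev x) v) • v := by
    rw [mul_app, hB, hA]
    simp only [sf_add_left, sf_smul_left, sf_self, h2', h1, h3, mul_zero, add_zero]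
    module
  have hT2 : IsTv v (1 + 1) (T ^ 2) := by
    rw [pow_two]; exact hT.mul hT
  have e3 : ev (app (T ^ 2 * A * B) x) = ev (app (B * A) x) := by
    rw [mul_assoc, mul_app, hT2, e2, e1]
    simp only [sf_add_left, sf_smul_left, sf_self, h1, h2, mul_zero, add_zero]
    module
  exact e3.symm

theorem e_comm (h1 : sf e v = 0) (q : ℕ) {A T : St n} (hA : IsE v e A) (hT : IsTv v 1 T) :
    Commute (cR (IT n) q T) (cR (IT n) q A) := by
  unfold Commute SemiconjBy
  rw [← map_mul, ← map_mul]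
  refine cR_eq q _ _ fun x => ?_
  have h1' : sf v e = 0 := by rw [sf_swap, h1, neg_zero]
  rw [mul_app, mul_app, hT, hA, hA, hT]
  simp only [sf_add_left, sf_smul_left, sf_self, h1, h1', mul_zero, add_zero]
  module

end rel

theorem pow_rel {R : Type*} [Ring R] {A B S : R} (hSA : Commute S A) (hSB : Commute S B)
    (h : A * B = S * B * A) (a b : ℕ) : A ^ a * B ^ b = S ^ (a * b) * B ^ b * A ^ a := by
  have h1 : ∀ b : ℕ, A * B ^ b = S ^ b * B ^ b * A := by
    intro b
    induction b with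
    | zero => simp
    | succ b ih =>
      rw [pow_succ B, ← mul_assoc, ih, mul_assoc _ A B, h, pow_succ S]
      have h2 : B ^ b * S = S * B ^ b := (hSB.pow_right b).eq.symm
      calc S ^ b * B ^ b * (S * B * A) = S ^ b * (B ^ b * S) * B * A := by noncomm_ring
        _ = S ^ b * (S * B ^ b) * B * A := by rw [h2]
        _ = S ^ b * S * (B ^ b * B) * A := by noncomm_ring
  induction a with
  | zero => simp
  | succ a ih =>
    have h3 : A * S ^ (a * b) = S ^ (a * b) * A := (hSA.symm.pow_right (a * b)).eq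
    calc A ^ (a + 1) * B ^ b = A * (A ^ a * B ^ b) := by rw [pow_succ', mul_assoc]
      _ = A * (S ^ (a * b) * B ^ b * A ^ a) := by rw [ih]
      _ = (A * S ^ (a * b)) * B ^ b * A ^ a := by noncomm_ring
      _ = (S ^ (a * b) * A) * B ^ b * A ^ a := by rw [h3]
      _ = S ^ (a * b) * (A * B ^ b) * A ^ a := by noncomm_ring
      _ = S ^ (a * b) * (S ^ b * B ^ b * A) * A ^ a := by rw [h1]
      _ = (S ^ (a * b) * S ^ b) * B ^ b * (A * A ^ a) := by noncomm_ring
      _ = S ^ ((a + 1) * b) * B ^ b * A ^ (a + 1) := by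
          rw [← pow_add, pow_succ' A, Nat.succ_mul]

theorem prm_single {n : ℕ} (a : Fin 2) (i : Fin n) : Prm (Pi.single (a, i) 1 : Hh n) := by
  fin_cases a
  · refine ⟨Pi.single (1, i) 1, ?_⟩
    change sf (Pi.single (0, i) 1) _ = 1
    rw [sf_single_left]; simp
  · refine ⟨-Pi.single (0, i) 1, ?_⟩
    change sf (Pi.single (1, i) 1) _ = 1
    rw [sf_single_left]; simp

/-- THE LAST STEP OF NEAR-FAR -/
theorem nu_of_ne {q N K c : ℕ} (h : NE q N K c) : NU q (2 * (N * N)) K (c + 1) := by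
  obtain ⟨i, hi⟩ := h
  intro r hr v hv τ hτ x
  set e : Hh (K + r) := Pi.single (loE K r (0, i)) 1 with he
  set f : Hh (K + r) := Pi.single (loE K r (1, i)) 1 with hf
  set u : Hh (K + r) := upv K r v with hu
  have hn0 : 0 < K + r := by omega
  have heu : sf e u = 0 := by
    have e1 : loE K r (0, i) = (0, Fin.castAdd r i) := rfl
    rw [he, e1, sf_single_left, if_pos rfl]
    exact upv_new v (1, i)
  have hfu : sf f u = 0 := by
    have e1 : loE K r (1, i) = (1, Fin.castAdd r i) := rfl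
    rw [hf, e1, sf_single_left, if_neg (by decide)]
    have e2 : u (0, Fin.castAdd r i) = 0 := upv_new v (0, i)
    rw [e2, neg_zero]
  have hef : sf e f = 1 := by
    have e1 : loE K r (0, i) = (0, Fin.castAdd r i) := rfl
    have e2 : loE K r (1, i) = (1, Fin.castAdd r i) := rfl
    rw [he, hf, e1, e2, sf_single_left, if_pos rfl]
    simp
  have hue : sf u e = 0 := by rw [sf_swap, heu, neg_zero]
  have huf : sf u f = 0 := by rw [sf_swap, hfu, neg_zero]
  have hup : Prm u := hv.up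
  have hue' : Prm (u + e) := ⟨f, by rw [sf_add_left, huf, hef, zero_add]⟩
  have huf' : Prm (u + f) := ⟨-e, by
    rw [sf_neg_right, sf_add_left, hue, sf_swap, hef]; norm_num⟩
  obtain ⟨A, hA⟩ := exists_isE hn0 hup (prm_single 0 (Fin.castAdd r i)) hue' hue
  obtain ⟨B, hB⟩ := exists_isE hn0 hup (prm_single 1 (Fin.castAdd r i)) huf' huf
  have hT : IsTv u 1 (up K r τ) := isTv_up hτ
  have cA := e_comm heu q hA hT
  have cB := e_comm hfu q hB hT
  have hrel := e_rel heu hfu hef q hA hB hT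
  have hpow := pow_rel (cB.pow_left 2) (cA.pow_left 2) hrel N N
  have hinj : ∀ g : St (K + r), Function.Injective (cR (IT (K + r)) q g) := by
    intro g a b hab
    have h1 : ∀ y, cR (IT (K + r)) q g⁻¹ (cR (IT (K + r)) q g y) = y := by
      intro y
      rw [← Module.End.mul_apply, ← map_mul, inv_mul_cancel, map_one]; rfl
    rw [← h1 a, hab, h1]
  have hinjN : Function.Injective ((cR (IT (K + r)) q B) ^ N) := by
    rw [← map_pow]
    exact hinj _
  have hcX : Commute (((cR (IT (K + r)) q (up K r τ)) ^ 2) ^ (N * N)) ((cR (IT (K + r)) q B) ^ N) :=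
    ((cB.pow_left 2).pow_left _).pow_right _
  have hcY : Commute (((cR (IT (K + r)) q (up K r τ)) ^ 2) ^ (N * N)) ((cR (IT (K + r)) q A) ^ N) :=
    ((cA.pow_left 2).pow_left _).pow_right _
  obtain ⟨m, hm⟩ := H56.heis_pt ((cR (IT (K + r)) q B) ^ N) ((cR (IT (K + r)) q A) ^ N)
    (((cR (IT (K + r)) q (up K r τ)) ^ 2) ^ (N * N)) hinjN hcX hcY hpow
    (hn (upI K r) q x) (hi r (by omega) v hv 1 B hB x) (hi r (by omega) v hv 0 A hA x)
  refine ⟨m, ?_⟩
  rw [pow_mul]
  exact hm

end Pool.Agent.TOR.SA
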