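import Pool.Agent.Helper36_TOR.Stmts

/-! Part (a) of S01763, action side: identification of the stabilisers. -/

set_option autoImplicit false

namespace Pool.Agent.TOR.SA

open CategoryTheory Rep Representation Pool.Agent.TOR Pool.Agent.TOR.H58 Pool.Agent.TOR.H59
open Pool.Agent.TOR96 Pool.Agent.TOR.H29

theorem upv_inj {m r : ℕ} : Function.Injective (upv m r) := by
  intro v w h
  funext l
  rw [← upv_old (m := m) v l, h, upv_old]

theorem isTv_up {m r : ℕ} {v : Hh r} {k : ℤ} {ψ : St r} (h : IsTv v k ψ) :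
    IsTv (upv m r v) k (up m r ψ) := by
  intro x
  induction x using FreeGroup.induction_on with
  | C1 =>
    have : app (up m r ψ) 1 = 1 := map_one _
    rw [this, ev_one, sf_zero_left, mul_zero, zero_smul, add_zero]
  | of l =>
    rcases split_eq l with ⟨l', rfl⟩ | ⟨l', rfl⟩
    · have h1 : (FreeGroup.of (hiE m r l') : FF (m + r)) =
          FreeGroup.map (hiE m r) (FreeGroup.of l') := by rw [FreeGroup.map.of]
      rw [h1, up_map, ev_map, ev_map, h, upv_add, upv_smul, sf_upv]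
    · rw [up_of]
      have h2 : sf (ev (FreeGroup.of (loE m r l') : FF (m + r))) (upv m r v) = 0 := by
        rw [ev_of]
        obtain ⟨a, j⟩ := l'
        have e : loE m r (a, j) = (a, Fin.castAdd r j) := rfl
        rw [e, sf_single_left]
        have h3 : ∀ b, upv m r v (b, Fin.castAdd r j) = 0 := fun b => upv_new v (b, j)
        simp [h3]
      rw [h2, mul_zero, zero_smul, add_zero]
  | inv_of l hl =>
    have : app (up m r ψ) (FreeGroup.of l)⁻¹ = (app (up m r ψ) (FreeGroup.of l))⁻¹ := map_inv _ _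
    rw [this, ev_inv, hl, ev_inv, sf_neg_left, neg_add, mul_neg, neg_smul]
  | mul x y hx hy =>
    rw [app_mul, ev_mul, hx, hy, ev_mul, sf_add_left, mul_add, add_smul]
    abel

theorem isTv_of_up {m r : ℕ} {v : Hh r} {k : ℤ} {ψ : St r} (h : IsTv (upv m r v) k (up m r ψ)) :
    IsTv v k ψ := by
  intro x
  have h1 := h (FreeGroup.map (hiE m r) x)
  rw [up_map, ev_map, ev_map, sf_upv, ← upv_smul, ← upv_add] at h1
  exact upv_inj h1

theorem isTv_conj {n : ℕ} {v : Hh n} {k : ℤ} {ψ : St n} (φ : St n) (h : IsTv v k ψ) :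
    IsTv (hact φ v) k (φ * ψ * φ⁻¹) := by
  intro x
  rw [mul_app, mul_app, ← hact_ev φ, h, hact_add, hact_smul, hact_ev, app_inv_self]
  congr 3
  rw [← sf_hact φ, hact_ev, app_inv_self]

theorem isTv_conj_iff {n : ℕ} {v : Hh n} {k : ℤ} {ψ : St n} (φ : St n) :
    IsTv (hact φ v) k (φ * ψ * φ⁻¹) ↔ IsTv v k ψ := by
  refine ⟨fun h => ?_, isTv_conj φ⟩
  have h1 := isTv_conj φ⁻¹ h
  rw [← hact_mul, inv_mul_cancel, hact_one] at h1
  have e : φ⁻¹ * (φ * ψ * φ⁻¹) * φ⁻¹⁻¹ = ψ := by group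
  rwa [e] at h1

/-- the embedding `ψ ↦ φ (up ψ) φ⁻¹` -/
noncomputable def eH {m r : ℕ} (φ : St (m + r)) {v : Hh (m + r)} {v' : Hh r}
    (h : hact φ (upv m r v') = v) : Gam v' →* Gam v where
  toFun ψ := ⟨φ * up m r ψ.1 * φ⁻¹, by
    obtain ⟨k, hk⟩ := ψ.2
    refine ⟨k, ?_⟩
    rw [← h]
    exact isTv_conj φ (isTv_up hk)⟩
  map_one' := by
    apply Subtype.ext
    change φ * up m r (1 : St r) * φ⁻¹ = 1
    rw [map_one, mul_one, mul_inv_cancel]
  map_mul' a b := by
    apply Subtype.ext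
    change φ * up m r (a.1 * b.1) * φ⁻¹ = (φ * up m r a.1 * φ⁻¹) * (φ * up m r b.1 * φ⁻¹)
    rw [map_mul]
    group

theorem eH_coe {m r : ℕ} (φ : St (m + r)) {v : Hh (m + r)} {v' : Hh r}
    (h : hact φ (upv m r v') = v) (ψ : Gam v') :
    ((eH φ h ψ : Gam v) : St (m + r)) = φ * up m r ψ.1 * φ⁻¹ := rfl

theorem up_injective {m r : ℕ} : Function.Injective (up m r) := by
  intro a b h
  refine st_ext fun x => ?_
  have h1 := up_map a (m := m) x
  rw [h, up_map] at h1
  exact (FreeGroup.map_injective (hiE m r).injective h1).symm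

theorem eH_injective {m r : ℕ} (φ : St (m + r)) {v : Hh (m + r)} {v' : Hh r}
    (h : hact φ (upv m r v') = v) : Function.Injective (eH φ h) := by
  intro a b hab
  have h1 := congrArg Subtype.val hab
  rw [eH_coe, eH_coe] at h1
  have h2 := mul_left_cancel (mul_right_cancel h1)
  exact Subtype.ext (up_injective h2)

theorem isTv_eH {m r : ℕ} (φ : St (m + r)) {v : Hh (m + r)} {v' : Hh r}
    (h : hact φ (upv m r v') = v) (ψ : Gam v') (k : ℤ) :
    IsTv v k (eH φ h ψ).1 ↔ IsTv v' k ψ.1 := by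
  rw [eH_coe]
  subst h
  rw [isTv_conj_iff]
  exact ⟨isTv_of_up, isTv_up⟩

theorem dgm_eH {m r : ℕ} (φ : St (m + r)) {v : Hh (m + r)} {v' : Hh r}
    (h : hact φ (upv m r v') = v) (hv : v ≠ 0) (hv' : v' ≠ 0) (ψ : Gam v') :
    dgm v (eH φ h ψ) = dgm v' ψ := by
  rw [dgm_apply hv']
  exact dgm_eq hv _ ((isTv_eH φ h ψ _).2 (dg_spec ψ))

/-- the subgroup of the elements fixing the first m handles of the coordinate system φ -/
def Ssub {n : ℕ} (v : Hh n) (m : ℕ) (h : m ≤ n) (φ : St n) : Subgroup (Gam v) where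
  carrier := {g | ∀ (a : Fin 2) (i : Fin m), app g.1 (app φ (FreeGroup.of (a, Fin.castLE h i))) =
    app φ (FreeGroup.of (a, Fin.castLE h i))}
  one_mem' := fun a i => rfl
  mul_mem' := by
    intro x y hx hy a i
    rw [Subgroup.coe_mul, mul_app, hy, hx]
  inv_mem' := by
    intro x hx a i
    have h1 := hx a i
    rw [Subgroup.coe_inv]
    conv_lhs => rw [← h1]
    rw [inv_app_self]

theorem mem_Ssub {n : ℕ} {v : Hh n} {m : ℕ} {h : m ≤ n} {φ : St n} {g : Gam v} :
    g ∈ Ssub v m h φ ↔ ∀ (a : Fin 2) (i : Fin m),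
      app g.1 (app φ (FreeGroup.of (a, Fin.castLE h i))) =
        app φ (FreeGroup.of (a, Fin.castLE h i)) := Iff.rfl

/-- the first m handles of the coordinate system φ are orthogonal to v -/
def Orth {n : ℕ} (v : Hh n) (m : ℕ) (h : m ≤ n) (φ : St n) : Prop :=
  ∀ (a : Fin 2) (i : Fin m), sf (ev (app φ (FreeGroup.of (a, Fin.castLE h i)))) v = 0

theorem castLE_lo {m r : ℕ} (h : m ≤ m + r) (a : Fin 2) (i : Fin m) :
    ((a, Fin.castLE h i) : Fin 2 × Fin (m + r)) = loE m r (a, i) := rfl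

/-- existence of the near class -/
theorem exists_near {m r : ℕ} {v : Hh (m + r)} {φ : St (m + r)}
    (ho : Orth v m (Nat.le_add_right m r) φ) : ∃ v' : Hh r, hact φ (upv m r v') = v := by
  set w := hact φ⁻¹ v with hw
  refine ⟨fun l => w (hiE m r l), ?_⟩
  have h1 : upv m r (fun l => w (hiE m r l)) = w := by
    refine hh_ext (fun l => ?_) (fun l => ?_)
    · rw [upv_old]
    · rw [upv_new]
      have h2 : ∀ (a : Fin 2) (j : Fin m),
          sf (ev (FreeGroup.of (loE m r (a, j)) : FF (m + r))) w = 0 := by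
        intro a j
        have h3 := ho a j
        rw [castLE_lo] at h3
        rw [← sf_hact φ, hact_ev, hw, ← hact_mul, mul_inv_cancel, hact_one]
        exact h3
      obtain ⟨a, j⟩ := l
      have h4 := h2 0 j
      have h5 := h2 1 j
      have e : ∀ b, loE m r (b, j) = (b, Fin.castAdd r j) := fun b => rfl
      rw [ev_of, e, sf_single_left] at h4 h5
      rw [e]
      fin_cases a
      · exact (by simpa using h5 : w (0, Fin.castAdd r j) = 0).symm
      · exact (by simpa using h4 : w (1, Fin.castAdd r j) = 0).symm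
  rw [h1, hw, ← hact_mul, mul_inv_cancel, hact_one]

theorem prm_near {m r : ℕ} {v : Hh (m + r)} {φ : St (m + r)} {v' : Hh r}
    (h : hact φ (upv m r v') = v) (hv : Prm v) : Prm v' := by
  obtain ⟨w, hw⟩ := hv
  refine ⟨fun l => (hact φ⁻¹ w) (hiE m r l), ?_⟩
  have h1 : sf (upv m r v') (hact φ⁻¹ w) = 1 := by
    rw [← sf_hact φ, h, ← hact_mul, mul_inv_cancel, hact_one, hw]
  rw [← h1]
  unfold sf
  rw [Fin.sum_univ_add]
  have h3 : ∀ (u : Hh r) (a : Fin 2) (i : Fin m), upv m r u (a, Fin.castAdd r i) = 0 :=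
    fun u a i => upv_new u (a, i)
  have h2 : ∀ (u : Hh r) (a : Fin 2) (i : Fin r), upv m r u (a, Fin.natAdd m i) = u (a, i) :=
    fun u a i => upv_old u (a, i)
  simp only [h3, h2]
  simp only [zero_mul, sub_self, Finset.sum_const_zero, zero_add]
  rfl

/-- the range of the embedding is the stabiliser of the far handles -/
theorem range_eH {m r : ℕ} (φ : St (m + r)) {v : Hh (m + r)} {v' : Hh r}
    (h : hact φ (upv m r v') = v) (g : Gam v) :
    g ∈ Ssub v m (Nat.le_add_right m r) φ ↔ ∃ ψ, eH φ h ψ = g := by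
  constructor
  · intro hg
    have h1 : ∀ l, (φ⁻¹ * g.1 * φ).1 (FreeGroup.of (loE m r l)) = FreeGroup.of (loE m r l) := by
      rintro ⟨a, j⟩
      have h2 := hg a j
      rw [castLE_lo] at h2
      change app (φ⁻¹ * g.1 * φ) (FreeGroup.of (loE m r (a, j))) = _
      rw [mul_app, mul_app, h2, inv_app_self]
    obtain ⟨ψ, hψ, h3⟩ := (std_stab m r _).1 ⟨(φ⁻¹ * g.1 * φ).2, h1⟩
    have h4 : φ⁻¹ * g.1 * φ = up m r ⟨ψ, hψ⟩ := Subtype.ext h3
    have h5 : g.1 = φ * up m r ⟨ψ, hψ⟩ * φ⁻¹ := by rw [← h4]; group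
    obtain ⟨k, hk⟩ := g.2
    have h6 : IsTv v' k ⟨ψ, hψ⟩ := by
      rw [h5, ← h, isTv_conj_iff] at hk
      exact isTv_of_up hk
    exact ⟨⟨⟨ψ, hψ⟩, k, h6⟩, Subtype.ext h5.symm⟩
  · rintro ⟨ψ, rfl⟩ a j
    rw [eH_coe, castLE_lo, mul_app, mul_app, inv_app_self, up_of]

end Pool.Agent.TOR.SA
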