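import Pool.Agent.Helper36_TOR.Ssi

/-! Part (a) of S01763, action side: transfer of homology, the ring. -/

set_option autoImplicit false

namespace Pool.Agent.TOR.SA

open CategoryTheory CategoryTheory.Limits Rep Representation Pool.Agent.TOR Pool.Agent.TOR.H58
open Pool.Agent.TOR.H59 Pool.Agent.TOR96 Pool.Agent.TOR.H29

universe u

section gen

variable {k : Type u} [CommRing k] {G H : Type u} [Group G] [Group H]

/-- an equivariant map -/
noncomputable def mk1 (f : G →* H) (A : Rep.{u} k G) (B : Rep.{u} k H) (F : A →ₗ[k] B)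
    (h : ∀ g a, F (A.ρ g a) = B.ρ (f g) (F a)) : A ⟶ res f B :=
  ofHom ⟨F, fun g => LinearMap.ext fun a => h g a⟩

theorem mk1_hom (f : G →* H) (A : Rep.{u} k G) (B : Rep.{u} k H) (F : A →ₗ[k] B)
    (h : ∀ g a, F (A.ρ g a) = B.ρ (f g) (F a)) (a : A) : (mk1 f A B F h).hom a = F a := rfl

/-- isomorphisms induce surjections on homology -/
theorem gI_surj_of_equiv (e : G ≃* H) (A : Rep.{u} k G) (B : Rep.{u} k H) (F : A ≃ₗ[k] B)
    (hF : ∀ g a, F (A.ρ g a) = B.ρ (e g) (F a)) (n : ℕ) (y : groupHomology B n) :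
    ∃ x, gI e.toMonoidHom (mk1 e.toMonoidHom A B F.toLinearMap hF) n x = y := by
  have hG : ∀ (h : H) (b : B), F.symm (B.ρ h b) = A.ρ (e.symm h) (F.symm b) := by
    intro h b
    apply F.injective
    rw [LinearEquiv.apply_symm_apply, hF, MulEquiv.apply_symm_apply, LinearEquiv.apply_symm_apply]
  refine ⟨gI e.symm.toMonoidHom (mk1 e.symm.toMonoidHom B A F.symm.toLinearMap hG) n y, ?_⟩
  have h3 : ∀ (h : H) (b : B), (LinearMap.id : B →ₗ[k] B) (B.ρ h b) =
      B.ρ ((e.toMonoidHom.comp e.symm.toMonoidHom) h) ((LinearMap.id : B →ₗ[k] B) b) := by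
    intro h b
    have : (e.toMonoidHom.comp e.symm.toMonoidHom) h = h := e.apply_symm_apply h
    rw [this]; rfl
  have h4 := gI_comp e.symm.toMonoidHom e.toMonoidHom
    (mk1 e.symm.toMonoidHom B A F.symm.toLinearMap hG) (mk1 e.toMonoidHom A B F.toLinearMap hF)
    (mk1 (e.toMonoidHom.comp e.symm.toMonoidHom) B B LinearMap.id h3)
    (fun x => (F.apply_symm_apply x).symm) n y
  refine h4.trans ?_
  have h5 := gI_congr (φ := e.toMonoidHom.comp e.symm.toMonoidHom) (ψ := MonoidHom.id H)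
    (fun g => e.apply_symm_apply g)
    (mk1 (e.toMonoidHom.comp e.symm.toMonoidHom) B B LinearMap.id h3) (B := B) (𝟙 B)
    (fun x => rfl) n y
  exact h5.trans (H72.gI_id B n y)

theorem van_of_zero {A : Rep.{u} k G} {n : ℕ} (h : ∀ x : groupHomology A n, x = 0) : Van A n := by
  have : Subsingleton (groupHomology A n) := ⟨fun a b => (h a).trans (h b).symm⟩
  exact ModuleCat.isZero_of_subsingleton _

theorem van_of_equiv (e : G ≃* H) (A : Rep.{u} k G) (B : Rep.{u} k H) (F : A ≃ₗ[k] B)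
    (hF : ∀ g a, F (A.ρ g a) = B.ρ (e g) (F a)) (n : ℕ) (hA : Van A n) : Van B n := by
  refine van_of_zero fun y => ?_
  obtain ⟨x, rfl⟩ := gI_surj_of_equiv e A B F hF n y
  rw [van_elt hA x, map_zero]

/-- inclusion of a subgroup on homology -/
noncomputable def sbi (S : Subgroup G) (A : Rep.{u} k G) (n : ℕ) :
    groupHomology (res S.subtype A) n →ₗ[k] groupHomology A n :=
  gI S.subtype (𝟙 (res S.subtype A)) n

end gen

/-! ### the ring -/

/-- the group ring -/
abbrev LL : Type := MonoidAlgebra ℚ (Multiplicative ℤ)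

/-- the localization at T ^ M - 1 -/
abbrev RM (M : ℕ) : Type := Localization (Submonoid.powers ((TT ^ M - 1 : LL)))

theorem TT_pow (M : ℕ) : (TT ^ M : LL) = MonoidAlgebra.single (Multiplicative.ofAdd (M : ℤ)) 1 := by
  unfold TT
  rw [MonoidAlgebra.single_pow, one_pow, ← ofAdd_nsmul]
  simp

theorem TT_pow_sub_one_ne {M : ℕ} (hM : 1 ≤ M) : (TT ^ M - 1 : LL) ≠ 0 := by
  intro h
  have h1 : (TT ^ M : LL) = 1 := sub_eq_zero.1 h
  rw [TT_pow] at h1
  have h2 := congrArg (fun p : LL => p.coeff (Multiplicative.ofAdd (M : ℤ))) h1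
  simp only [MonoidAlgebra.coeff_single, MonoidAlgebra.one_def, Finsupp.single_apply] at h2
  simp at h2
  have h3 : (0 : ℤ) = M := congrArg Multiplicative.toAdd h2
  omega

theorem powers_le (M : ℕ) (hM : 1 ≤ M) :
    Submonoid.powers ((TT ^ M - 1 : LL)) ≤ nonZeroDivisors LL :=
  powers_le_nonZeroDivisors_of_noZeroDivisors (TT_pow_sub_one_ne hM)

/-- the character -/
noncomputable def chR {n : ℕ} (v : Hh n) (M : ℕ) : Gam v →* RM M :=
  ((algebraMap LL (RM M) : LL →* RM M).comp (uL (dgm v)⁻¹))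

/-- the coefficients -/
noncomputable abbrev AA {n : ℕ} (v : Hh n) (M : ℕ) : Rep.{0} (RM M) (Gam v) :=
  chRep (RM M) (chR v M)

theorem chR_eq {n n' : ℕ} {v : Hh n} {v' : Hh n'} (M : ℕ) {g : Gam v} {g' : Gam v'}
    (h : dgm v g = dgm v' g') : chR v M g = chR v' M g' := by
  unfold chR
  rw [MonoidHom.comp_apply, MonoidHom.comp_apply, uL_apply, uL_apply, MonoidHom.inv_apply,
    MonoidHom.inv_apply, h]

/-- vanishing -/
def VA (q M c : ℕ) : Prop := ∀ n, c ≤ n → ∀ v : Hh n, Prm v → Van (AA v M) q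

theorem eval_pow {G : Type} [Group G] (N : Subgroup G) [N.Normal] (i : ℕ) (t : G) (M a : ℕ)
    (x : groupHomology (Rep.trivial ℚ N ℚ) i) :
    MonoidAlgebra.lift ℚ (Module.End ℚ (groupHomology (Rep.trivial ℚ N ℚ) i))
        (Multiplicative ℤ) ((cR N i).comp (zpowersHom G t)) ((TT ^ M - 1) ^ a) x =
      (((cR N i t) ^ M - 1) ^ a) x := by
  simp [TT, MonoidAlgebra.lift_single]

/-- vanishing gives quasi-unipotence -/
theorem lu_of_va {q M c : ℕ} (hM : 1 ≤ M) (h : VA q M c) : LU q M c := by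
  intro n hn v hv τ hτ x
  have hv0 := hv.ne_zero
  have hτΓ : τ ∈ Gam v := ⟨1, hτ⟩
  obtain ⟨p, ⟨a, rfl⟩, hp⟩ := torsion_cyc (IT n) (Gam v) (IT_le_Gam v) (dgm v)
    (fun g => dgm_eq_one hv0 g) ⟨τ, hτΓ⟩ (dgm_eq hv0 _ hτ) (RM M)
    (Submonoid.powers ((TT ^ M - 1 : LL))) (powers_le M hM) q (h n hn v hv) x
  exact ⟨a, by rw [← eval_pow]; exact hp⟩

/-- the zero map theorem in the situation `N ≤ Γ ≤ G` -/
theorem zero_gen {G Γ' N' : Type} [Group G] [Group Γ'] [Group N'] (N : Subgroup G) [N.Normal]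
    (Γ : Subgroup G) (hN : N ≤ Γ) (deg : Γ →* Multiplicative ℤ)
    (hker : ∀ g : Γ, deg g = 1 ↔ (g : G) ∈ N) (j : Γ' →* Γ) (ι : N' →* Γ')
    (hι : Function.Injective ι) (ν : N' →* N) (hν : ∀ x, ((ν x : N) : G) = j (ι x))
    (hker' : ∀ g, deg (j g) = 1 ↔ g ∈ ι.range) (t : Γ') (ht : deg (j t) = Multiplicative.ofAdd 1)
    (R : Type) [CommRing R] [Algebra LL R]
    (M : Submonoid LL) [IsLocalization M R]
    (hM : M ≤ nonZeroDivisors LL) (i : ℕ)
    (hyp : ∀ x : groupHomology (Rep.trivial ℚ N' ℚ) i, ∃ p ∈ M,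
      MonoidAlgebra.lift ℚ (Module.End ℚ (groupHomology (Rep.trivial ℚ N ℚ) i))
        (Multiplicative ℤ) ((cR N i).comp (zpowersHom G (j t : G))) p (hn ν i x) = 0)
    (y : groupHomology (chRep R (((algebraMap LL R : LL →* R).comp (uL deg⁻¹)).comp j)) i) :
    gI j (jm R j ((algebraMap LL R : LL →* R).comp (uL deg⁻¹))) i y = 0 := by
  refine H72.zero_jm (N := N') (N' := N) ι hι (Subgroup.inclusion hN)
    (Subgroup.inclusion_injective hN) deg⁻¹ j ?_ ?_ ν (fun x => Subtype.ext (hν x))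
    (fun m => t ^ (-Multiplicative.toAdd m)) ?_
    (fun m => cN N ((j t : G) ^ (Multiplicative.toAdd m))) ?_ R M hM i ?_ y
  · intro g
    rw [MonoidHom.inv_apply, inv_eq_one, hker']
  · intro g
    rw [MonoidHom.inv_apply, inv_eq_one, hker]
    constructor
    · intro h
      exact ⟨⟨g, h⟩, rfl⟩
    · rintro ⟨x, rfl⟩
      exact x.2
  · intro m
    rw [MonoidHom.inv_apply, map_zpow, map_zpow, ht, ← ofAdd_zsmul, ← ofAdd_neg]
    simp
  · intro m x
    apply Subtype.ext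
    change ((cN N ((j t : G) ^ (Multiplicative.toAdd m)) x : N) : G) =
      ((j (t ^ (-Multiplicative.toAdd m)) : Γ) : G)⁻¹ * (x : G) *
        ((j (t ^ (-Multiplicative.toAdd m)) : Γ) : G)
    rw [cN_coe, map_zpow, zpow_neg, Subgroup.coe_inv, Subgroup.coe_zpow, inv_inv]
  · intro x
    obtain ⟨p, hp, h⟩ := hyp x
    refine ⟨p, hp, ?_⟩
    rw [← h, MonoidAlgebra.lift_apply, Finsupp.sum, Finsupp.sum, LinearMap.sum_apply]
    refine Finset.sum_congr rfl fun m _ => ?_
    rw [LinearMap.smul_apply]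
    rfl

end Pool.Agent.TOR.SA
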